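import Mathlib

/-!
# The arithmetic derivative on squarefree numbers and its two cycles
-/

open Finset

namespace Pool.Agent.helper46.BC

/-- `∑_{p ∣ n} n / p`, the arithmetic derivative of a squarefree `n`. -/
def ad (n : ℕ) : ℕ := ∑ p ∈ n.primeFactors, n / p

lemma ad_prime {p : ℕ} (hp : p.Prime) : ad p = 1 := by
  simp [ad, hp.primeFactors, Nat.div_self hp.pos]

lemma ad_mul {a b : ℕ} (h : Nat.Coprime a b) : ad (a * b) = ad a * b + a * ad b := by
  unfold ad
  rw [h.primeFactors_mul, Finset.sum_union h.disjoint_primeFactors, Finset.sum_mul,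
    Finset.mul_sum]
  congr 1
  · refine Finset.sum_congr rfl fun p hp => ?_
    rw [Nat.div_mul_right_comm (Nat.dvd_of_mem_primeFactors hp)]
  · refine Finset.sum_congr rfl fun p hp => ?_
    exact Nat.mul_div_assoc _ (Nat.dvd_of_mem_primeFactors hp)

lemma coprime_ad {n : ℕ} (h : Squarefree n) : Nat.Coprime n (ad n) := by
  refine Nat.coprime_of_dvd fun r hr h1 h2 => ?_
  obtain ⟨k, rfl⟩ := h1
  have hc : Nat.Coprime r k := Nat.coprime_of_squarefree_mul h
  rw [ad_mul hc, ad_prime hr, one_mul] at h2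
  have : r ∣ k := (Nat.dvd_add_left (Dvd.intro _ rfl)).mp h2
  have := Nat.Coprime.eq_one_of_dvd hc this
  exact hr.one_lt.ne' this

/-- the numbers `∏ P` for solutions `(P, Q)` -/
def good (n : ℕ) : Prop := Squarefree n ∧ Squarefree (ad n) ∧ ad (ad n) = n

lemma good.symm {n : ℕ} (h : good n) : good (ad n) := by
  refine ⟨h.2.1, ?_, ?_⟩
  · rw [h.2.2]; exact h.1
  · rw [h.2.2]

lemma good.pos {n : ℕ} (h : good n) : 0 < n := Nat.pos_of_ne_zero h.1.ne_zero

lemma good_inj {n m : ℕ} (hn : good n) (hm : good m) (h : ad n = ad m) : n = m := by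
  rw [← hn.2.2, ← hm.2.2, h]

/-- the relation modulo `D ^ 2` -/
lemma key1 {a D p : ℕ} (hp : p.Prime) (hg : good (a * p)) (hD : D ∣ ad (a * p)) :
    Nat.Coprime D (ad a) ∧ Squarefree D ∧ ∃ E' : ℤ,
    (p:ℤ) * ((ad D : ℤ) * ad a - D * a) = - (ad D : ℤ) * a - (D:ℤ) ^ 2 * E' := by
  have hap : Nat.Coprime a p := Nat.coprime_of_squarefree_mul hg.1
  have hM : ad (a * p) = ad a * p + a := by rw [ad_mul hap, ad_prime hp, mul_one]
  have ha : Squarefree a := hg.1.squarefree_of_dvd (Dvd.intro _ rfl)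
  obtain ⟨E, hE⟩ := hD
  have hDE : Nat.Coprime D E := Nat.coprime_of_squarefree_mul (by rw [← hE]; exact hg.2.1)
  have hDs : Squarefree D := hg.2.1.squarefree_of_dvd (by rw [hE]; exact Dvd.intro _ rfl)
  have h2 : ad D * E + D * ad E = a * p := by
    rw [← ad_mul hDE, ← hE]; exact hg.2.2
  refine ⟨?_, hDs, (ad E : ℤ), ?_⟩
  · refine Nat.coprime_of_dvd fun r hr h1 h3 => ?_
    have h4 : r ∣ ad a * p + a := by
      rw [← hM, hE]; exact h1.mul_right _
    have h5 : r ∣ a := (Nat.dvd_add_right (h3.mul_right _)).mp h4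
    have := Nat.dvd_gcd h5 h3
    rw [coprime_ad ha] at this
    exact hr.one_lt.ne' (Nat.dvd_one.mp this)
  · have e1 : (ad a : ℤ) * p + a = D * E := by
      have := hM.symm.trans hE
      exact_mod_cast this
    have e2 : (ad D : ℤ) * E + D * ad E = a * p := by exact_mod_cast h2
    linear_combination (ad D : ℤ) * e1 + (D:ℤ) * e2

lemma key2 {a D p q : ℕ} (hp : p.Prime) (hg : good (a * p)) (hD : D ∣ ad (a * p))
    (hq : q.Prime) (hg' : good (a * q)) (hD' : D ∣ ad (a * q)) :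
    (D:ℤ) ^ 2 ∣ (p:ℤ) - q := by
  obtain ⟨h1, h2, E, h3⟩ := key1 hp hg hD
  obtain ⟨-, -, F, h4⟩ := key1 hq hg' hD'
  have c1 : IsCoprime (D:ℤ) ((ad D : ℤ) * ad a - D * a) := by
    have c2 : IsCoprime (D:ℤ) ((ad D : ℤ) * ad a) :=
      IsCoprime.mul_right (Nat.isCoprime_iff_coprime.mpr (coprime_ad h2))
        (Nat.isCoprime_iff_coprime.mpr h1)
    have c3 := IsCoprime.add_mul_left_right c2 (-(a:ℤ))
    have e : (ad D : ℤ) * ad a - D * a = (ad D : ℤ) * ad a + D * (-(a:ℤ)) := by ring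
    rw [e]
    exact c3
  have c3 : IsCoprime ((D:ℤ) ^ 2) ((ad D : ℤ) * ad a - D * a) := c1.pow_left
  refine c3.dvd_of_dvd_mul_right ⟨F - E, ?_⟩
  linear_combination h3 - h4

lemma card_class (S : Finset ℕ) (K m : ℕ) (h1 : ∀ p ∈ S, p ≤ K)
    (h2 : ∀ p ∈ S, ∀ q ∈ S, (m:ℤ) ∣ (p:ℤ) - q) : S.card ≤ K / m + 1 := by
  have : S.card ≤ (Finset.range (K / m + 1)).card := by
    refine Finset.card_le_card_of_injOn (fun p => p / m) (fun p hp => ?_) ?_
    · have := h1 p hp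
      simp only [Finset.coe_range, Set.mem_Iio]
      exact Nat.lt_succ_of_le (Nat.div_le_div_right this)
    · intro p hp q hq hpq
      have h3 := h2 p hp q hq
      simp only at hpq
      have h4 : q ≡ p [MOD m] := (Nat.modEq_iff_dvd).mpr h3
      have e1 := Nat.div_add_mod p m
      have e2 := Nat.div_add_mod q m
      rw [hpq] at e1
      unfold Nat.ModEq at h4
      rw [h4] at e2
      omega
  simpa using this

open Classical in
/-- the thin set -/
noncomputable def Aset (X y : ℕ) : Finset ℕ := (Finset.range (X + 1)).filter (fun n =>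
  good n ∧ ∃ p D, p.Prime ∧ p ∣ n ∧ D ∣ ad n ∧ y < D ∧ D * y ≤ p)

open Classical in
noncomputable def Sset (X a D : ℕ) : Finset ℕ := (Finset.range (X / a + 1)).filter (fun p =>
  p.Prime ∧ good (a * p) ∧ D ∣ ad (a * p))

open Classical in
lemma card_Sset (X a D : ℕ) : (Sset X a D).card ≤ X / a / D ^ 2 + 1 := by
  refine card_class _ _ _ (fun p hp => ?_) (fun p hp q hq => ?_)
  · have := (Finset.mem_filter.mp hp).1
    simp at this
    omega
  · have h1 := (Finset.mem_filter.mp hp).2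
    have h2 := (Finset.mem_filter.mp hq).2
    push_cast
    exact key2 h1.1 h1.2.1 h1.2.2 h2.1 h2.2.1 h2.2.2

open Classical in
lemma Aset_subset (X y : ℕ) (hy : 1 ≤ y) : Aset X y ⊆ (Finset.Icc 1 X).biUnion (fun a =>
    (Finset.Ioc y (X / (a * y))).biUnion (fun D => (Sset X a D).image (fun p => a * p))) := by
  intro n hn
  obtain ⟨h1, h2, p, D, hp, hpn, hD, hyD, hDp⟩ := Finset.mem_filter.mp hn
  have hnX : n ≤ X := by simp at h1; omega
  obtain ⟨a, rfl⟩ := hpn
  rw [mul_comm] at h2 hD hnX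
  have ha : 0 < a := by
    rcases Nat.eq_zero_or_pos a with h | h
    · subst h; simp at h2; exact absurd h2.pos (by simp)
    · exact h
  have hpa : p ≤ X / a := (Nat.le_div_iff_mul_le ha).mpr (by rw [mul_comm]; exact hnX)
  refine Finset.mem_biUnion.mpr ⟨a, ?_, Finset.mem_biUnion.mpr ⟨D, ?_, ?_⟩⟩
  · rw [Finset.mem_Icc]
    exact ⟨ha, le_trans (Nat.le_mul_of_pos_right a hp.pos) hnX⟩
  · rw [Finset.mem_Ioc]
    refine ⟨hyD, (Nat.le_div_iff_mul_le (Nat.mul_pos ha hy)).mpr ?_⟩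
    calc D * (a * y) = a * (D * y) := by ring
      _ ≤ a * p := Nat.mul_le_mul_left _ hDp
      _ ≤ X := hnX
  · refine Finset.mem_image.mpr ⟨p, ?_, mul_comm _ _⟩
    exact Finset.mem_filter.mpr ⟨by simp; omega, hp, h2, hD⟩

lemma sum_inv_sq (y K : ℕ) (hy : 1 ≤ y) :
    ∑ D ∈ Finset.Ioc y K, (1:ℝ) / (D:ℝ) ^ 2 ≤ 1 / y := by
  have hy' : (0:ℝ) < y := by exact_mod_cast hy
  rcases Nat.lt_or_ge K y with h | h
  · rw [Finset.Ioc_eq_empty (by omega)]; simp
  · have : ∀ K, y ≤ K → ∑ D ∈ Finset.Ioc y K, (1:ℝ) / (D:ℝ) ^ 2 ≤ 1 / y - 1 / K := by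
      intro K hK
      induction K, hK using Nat.le_induction with
      | base => simp
      | succ K hK ih =>
        have hK0 : (0:ℝ) < K := by
          have : 0 < K := by omega
          exact_mod_cast this
        rw [← Finset.insert_Ioc_right_eq_Ioc_add_one (by omega : y ≤ K), Finset.sum_insert (by simp)]
        have e : (1:ℝ) / ((K + 1 : ℕ) : ℝ) ^ 2 ≤ 1 / K - 1 / ((K + 1 : ℕ) : ℝ) := by
          push_cast
          rw [div_sub_div _ _ hK0.ne' (by positivity), div_le_div_iff₀ (by positivity)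
            (by positivity)]
          nlinarith
        linarith
    have h1 := this K h
    have : (0:ℝ) ≤ 1 / K := by positivity
    linarith

theorem card_Aset (X y : ℕ) (hX : 1 ≤ X) (hy : 1 ≤ y) :
    ((Aset X y).card : ℝ) ≤ 2 * X * (1 + Real.log X) / y := by
  classical
  have hy' : (0:ℝ) < y := by exact_mod_cast hy
  have h1 : (Aset X y).card ≤ ∑ a ∈ Finset.Icc 1 X, ∑ D ∈ Finset.Ioc y (X / (a * y)),
      (X / a / D ^ 2 + 1) := by
    refine (Finset.card_le_card (Aset_subset X y hy)).trans ?_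
    refine Finset.card_biUnion_le.trans (Finset.sum_le_sum fun a _ => ?_)
    refine Finset.card_biUnion_le.trans (Finset.sum_le_sum fun D _ => ?_)
    exact Finset.card_image_le.trans (card_Sset X a D)
  have h2 : ((Aset X y).card : ℝ) ≤ ∑ a ∈ Finset.Icc 1 X, ∑ D ∈ Finset.Ioc y (X / (a * y)),
      ((X:ℝ) / a * (1 / (D:ℝ) ^ 2) + 1) := by
    calc ((Aset X y).card : ℝ) ≤ ((∑ a ∈ Finset.Icc 1 X, ∑ D ∈ Finset.Ioc y (X / (a * y)),
      (X / a / D ^ 2 + 1) : ℕ) : ℝ) := by exact_mod_cast h1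
      _ = ∑ a ∈ Finset.Icc 1 X, ∑ D ∈ Finset.Ioc y (X / (a * y)),
        (((X / a / D ^ 2 : ℕ) : ℝ) + 1) := by push_cast; rfl
      _ ≤ _ := by
        refine Finset.sum_le_sum fun a _ => Finset.sum_le_sum fun D _ => ?_
        have : ((X / a / D ^ 2 : ℕ) : ℝ) ≤ (X:ℝ) / a * (1 / (D:ℝ) ^ 2) := by
          calc ((X / a / D ^ 2 : ℕ) : ℝ) ≤ ((X / a : ℕ) : ℝ) / ((D ^ 2 : ℕ) : ℝ) := Nat.cast_div_le
            _ ≤ ((X:ℝ) / a) / ((D ^ 2 : ℕ) : ℝ) := by
              gcongr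
              exact Nat.cast_div_le
            _ = _ := by push_cast; ring
        linarith
  refine h2.trans ?_
  have h3 : ∀ a ∈ Finset.Icc 1 X, ∑ D ∈ Finset.Ioc y (X / (a * y)),
      ((X:ℝ) / a * (1 / (D:ℝ) ^ 2) + 1) ≤ 2 * X / y * ((a:ℝ)⁻¹) := by
    intro a ha
    have ha' : (0:ℝ) < a := by
      have := (Finset.mem_Icc.mp ha).1
      exact_mod_cast this
    rw [Finset.sum_add_distrib, ← Finset.mul_sum]
    have e1 := sum_inv_sq y (X / (a * y)) hy
    have e2 : ∑ D ∈ Finset.Ioc y (X / (a * y)), (1:ℝ) ≤ (X:ℝ) / (a * y) := by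
      rw [Finset.sum_const, Nat.card_Ioc, nsmul_eq_mul, mul_one]
      calc ((X / (a * y) - y : ℕ) : ℝ) ≤ ((X / (a * y) : ℕ) : ℝ) := by
            exact_mod_cast Nat.sub_le _ _
        _ ≤ (X:ℝ) / ((a * y : ℕ) : ℝ) := Nat.cast_div_le
        _ = _ := by push_cast; rfl
    have e3 : (X:ℝ) / a * ∑ D ∈ Finset.Ioc y (X / (a * y)), (1:ℝ) / (D:ℝ) ^ 2 ≤
        (X:ℝ) / a * (1 / y) := mul_le_mul_of_nonneg_left e1 (by positivity)
    calc _ ≤ (X:ℝ) / a * (1 / y) + (X:ℝ) / (a * y) := add_le_add e3 e2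
      _ = _ := by field_simp; ring
  refine (Finset.sum_le_sum h3).trans ?_
  rw [← Finset.mul_sum]
  have h4 : ∑ a ∈ Finset.Icc 1 X, ((a:ℝ))⁻¹ ≤ 1 + Real.log X := by
    have := harmonic_le_one_add_log X
    rw [harmonic_eq_sum_Icc] at this
    push_cast at this
    exact this
  calc 2 * (X:ℝ) / y * ∑ a ∈ Finset.Icc 1 X, ((a:ℝ))⁻¹ ≤ 2 * (X:ℝ) / y * (1 + Real.log X) :=
        mul_le_mul_of_nonneg_left h4 (by positivity)
    _ = _ := by ring

end Pool.Agent.helper46.BC
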