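import Mathlib
import Pool.Agent.helper46.BC.Ad

/-!
# Every large solution meets the thin set
-/

open Finset

namespace Pool.Agent.helper46.BC

lemma greedy (S : Finset ℕ) (y p : ℕ) (h : ∀ r ∈ S, r * y ^ 2 ≤ p) (hS : y < ∏ r ∈ S, r) :
    ∃ T ⊆ S, y < ∏ r ∈ T, r ∧ (∏ r ∈ T, r) * y ≤ p := by
  induction S using Finset.induction_on with
  | empty =>
    refine ⟨∅, le_rfl, hS, ?_⟩
    simp at hS
    simp [hS]
  | insert r S hr ih =>
    rcases Nat.lt_or_ge y (∏ r ∈ S, r) with h1 | h1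
    · obtain ⟨T, hT, h2, h3⟩ := ih (fun r hr => h r (Finset.mem_insert_of_mem hr)) h1
      exact ⟨T, hT.trans (Finset.subset_insert _ _), h2, h3⟩
    · refine ⟨insert r S, le_rfl, hS, ?_⟩
      rw [Finset.prod_insert hr]
      calc r * (∏ r ∈ S, r) * y ≤ r * y * y := by gcongr
        _ = r * y ^ 2 := by ring
        _ ≤ p := h r (Finset.mem_insert_self _ _)

lemma notA_prime {X y n p r : ℕ} (hg : good n) (hn : n ≤ X) (hA : n ∉ Aset X y) (hp : p.Prime)
    (hpn : p ∣ n) (hrn : r ∣ ad n) (hyr : y < r) : p < r * y := by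
  classical
  by_contra hcon
  exact hA (Finset.mem_filter.mpr ⟨by simp; omega, hg, p, r, hp, hpn, hrn, hyr, not_lt.mp hcon⟩)

lemma notA {X y n p : ℕ} (hg : good n) (hn : n ≤ X) (hA : n ∉ Aset X y) (hp : p.Prime)
    (hpn : p ∣ n) (hyp : y ^ 3 ≤ p) :
    ∏ r ∈ (ad n).primeFactors.filter (fun r => r ≤ y), r ≤ y := by
  classical
  by_contra hcon
  obtain ⟨T, hT, h1, h2⟩ := greedy ((ad n).primeFactors.filter (fun r => r ≤ y)) y p
    (fun r hr => by
      calc r * y ^ 2 ≤ y * y ^ 2 := Nat.mul_le_mul_right _ (Finset.mem_filter.mp hr).2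
        _ = y ^ 3 := by ring
        _ ≤ p := hyp)
    (not_le.mp hcon)
  apply hA
  refine Finset.mem_filter.mpr ⟨by simp; omega, hg, p, ∏ r ∈ T, r, hp, hpn, ?_, h1, h2⟩
  rw [← Nat.prod_primeFactors_of_squarefree hg.2.1]
  exact Finset.prod_dvd_prod_of_subset _ _ _ (hT.trans (Finset.filter_subset _ _))

/-- `∑ 1 / r` over a set -/
noncomputable def rr (S : Finset ℕ) : ℝ := ∑ r ∈ S, 1 / (r:ℝ)

lemma rr_nonneg (S : Finset ℕ) : 0 ≤ rr S := Finset.sum_nonneg fun r _ => by positivity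

lemma ad_eq {n : ℕ} : (ad n : ℝ) = n * rr n.primeFactors := by
  unfold ad rr
  rw [Finset.mul_sum]
  push_cast
  refine Finset.sum_congr rfl fun p hp => ?_
  have := (Nat.prime_of_mem_primeFactors hp).pos
  have h0 : (p:ℝ) ≠ 0 := by exact_mod_cast this.ne'
  rw [Nat.cast_div (Nat.dvd_of_mem_primeFactors hp) h0]
  field_simp

lemma rr_eq {S : Finset ℕ} (h : ∀ p ∈ S, p.Prime) :
    rr S * ((∏ p ∈ S, p : ℕ) : ℝ) = (ad (∏ p ∈ S, p) : ℝ) := by
  rw [ad_eq, Nat.primeFactors_prod h, mul_comm]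

lemma rr_le_card {S : Finset ℕ} (c : ℝ) (h : ∀ p ∈ S, 1 / (p:ℝ) ≤ c) : rr S ≤ S.card * c := by
  unfold rr
  calc _ ≤ ∑ r ∈ S, c := Finset.sum_le_sum h
    _ = _ := by simp

lemma card_le_log {n X : ℕ} (hn : Squarefree n) (h : n ≤ X) :
    n.primeFactors.card ≤ Nat.log 2 X := by
  have h1 : 2 ^ n.primeFactors.card ≤ n := by
    conv_rhs => rw [← Nat.prod_primeFactors_of_squarefree hn]
    refine Finset.pow_card_le_prod _ _ _ fun p hp => (Nat.prime_of_mem_primeFactors hp).two_le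
  have h0 : n ≠ 0 := hn.ne_zero
  exact Nat.le_log_of_pow_le (by norm_num) (h1.trans h)

lemma rr_good {n : ℕ} (hg : good n) : rr n.primeFactors * rr (ad n).primeFactors = 1 := by
  have h1 : (ad n : ℝ) = n * rr n.primeFactors := ad_eq
  have h2 : (ad (ad n) : ℝ) = ad n * rr (ad n).primeFactors := ad_eq
  rw [hg.2.2] at h2
  have hn : (n:ℝ) ≠ 0 := by exact_mod_cast hg.pos.ne'
  have hm : (ad n:ℝ) ≠ 0 := by exact_mod_cast hg.symm.pos.ne'
  have h3 : (n:ℝ) * (rr n.primeFactors * rr (ad n).primeFactors) = n * 1 := by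
    rw [← mul_assoc, ← h1, ← h2, mul_one]
  exact mul_left_cancel₀ hn h3

lemma rr_split (S : Finset ℕ) (P : ℕ → Prop) [DecidablePred P] :
    rr S = rr (S.filter P) + rr (S.filter (fun r => ¬ P r)) := by
  unfold rr
  rw [Finset.sum_filter_add_sum_filter_not]

/-- A solution with a large prime meets the thin set. -/
theorem structure_thm {X y n p : ℕ} (hX : 2 ≤ X) (hy : 1 ≤ y) (hg : good n) (hn : n ≤ X)
    (hm : ad n ≤ X) (hp : p.Prime) (hpn : p ∣ n)
    (hbig : 2 * (Nat.log 2 X) ^ 2 * y ^ 4 < p) : n ∈ Aset X y ∨ ad n ∈ Aset X y := by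
  by_contra hcon
  push Not at hcon
  obtain ⟨hA, hB⟩ := hcon
  set W := Nat.log 2 X with hW
  have hW1 : 1 ≤ W := Nat.log_pos (by norm_num) hX
  have hbig2 : 2 * y ^ 4 < p := by
    calc 2 * y ^ 4 = 2 * 1 ^ 2 * y ^ 4 := by ring
      _ ≤ 2 * W ^ 2 * y ^ 4 := by gcongr
      _ < p := hbig
  have hy34 : y ^ 3 ≤ y ^ 4 := Nat.pow_le_pow_right hy (by norm_num)
  have hgm := hg.symm
  have s1 := notA hg hn hA hp hpn (by omega)
  set Q := (ad n).primeFactors with hQ
  set P := n.primeFactors with hP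
  have cP : P.card ≤ W := card_le_log hg.1 hn
  have cQ : Q.card ≤ W := card_le_log hg.2.1 hm
  have hy0 : (1:ℝ) ≤ y := by exact_mod_cast hy
  have hy00 : (0:ℝ) < y := by linarith
  have hp0 : (0:ℝ) < p := by exact_mod_cast hp.pos
  have hW0 : (1:ℝ) ≤ W := by exact_mod_cast hW1
  have hPr : ∀ r ∈ P, r.Prime := fun r hr => Nat.prime_of_mem_primeFactors hr
  have hQr : ∀ r ∈ Q, r.Prime := fun r hr => Nat.prime_of_mem_primeFactors hr
  by_cases hb : ∀ r ∈ Q, r ≤ y
  · -- all primes of `ad n` small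
    rw [Finset.filter_true_of_mem hb, hQ, Nat.prod_primeFactors_of_squarefree hg.2.1] at s1
    have h1 : n ≤ ad n * ad n := by
      conv_lhs => rw [← hg.2.2]
      unfold ad
      rw [show (∑ p ∈ n.primeFactors, n / p) = ad n from rfl]
      calc ∑ p ∈ (ad n).primeFactors, ad n / p ≤ ∑ p ∈ (ad n).primeFactors, ad n :=
            Finset.sum_le_sum fun p _ => Nat.div_le_self _ _
        _ = (ad n).primeFactors.card * ad n := by simp
        _ ≤ ad n * ad n := by
          gcongr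
          calc (ad n).primeFactors.card ≤ (Finset.Icc 1 (ad n)).card := by
                refine Finset.card_le_card fun r hr => ?_
                rw [Finset.mem_Icc]
                exact ⟨(hQr r hr).one_lt.le, Nat.le_of_mem_primeFactors hr⟩
            _ = ad n := by simp
    have h2 : p ≤ n := Nat.le_of_dvd hg.pos hpn
    have h3 : p ≤ y ^ 4 := by
      calc p ≤ ad n * ad n := h2.trans h1
        _ ≤ y * y := Nat.mul_le_mul s1 s1
        _ = y ^ 2 := by ring
        _ ≤ y ^ 4 := Nat.pow_le_pow_right hy (by norm_num)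
    omega
  · push Not at hb
    obtain ⟨q, hqQ, hqy⟩ := hb
    have hq : q.Prime := hQr q hqQ
    have hqm : q ∣ ad n := Nat.dvd_of_mem_primeFactors hqQ
    have hpq : p < q * y := notA_prime hg hn hA hp hpn hqm hqy
    have hq3 : y ^ 3 ≤ q := by
      by_contra hcon
      have : q * y ≤ y ^ 3 * y := Nat.mul_le_mul_right _ (not_le.mp hcon).le
      have e : y ^ 3 * y = y ^ 4 := by ring
      omega
    have s2 := notA hgm hm hB hq hqm hq3
    rw [hg.2.2, ← hP] at s2
    have hq0 : (0:ℝ) < q := by exact_mod_cast hq.pos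
    have hpP : p ∈ P := (Nat.mem_primeFactors).mpr ⟨hp, hpn, hg.pos.ne'⟩
    set Qs := Q.filter (fun r => r ≤ y) with hQs
    set Qb := Q.filter (fun r => ¬ r ≤ y) with hQb
    set Ps := P.filter (fun r => r ≤ y) with hPs
    set Pb := P.filter (fun r => ¬ r ≤ y) with hPb
    have e1 : rr P = rr Ps + rr Pb := rr_split P _
    have e2 : rr Q = rr Qs + rr Qb := rr_split Q _
    have e3 : rr P * rr Q = 1 := rr_good hg
    have nPs := rr_nonneg Ps
    have nPb := rr_nonneg Pb
    have nQs := rr_nonneg Qs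
    have nQb := rr_nonneg Qb
    have one_le : ∀ r : ℕ, r.Prime → 1 / (r:ℝ) ≤ 1 := by
      intro r hr
      rw [div_le_one (by exact_mod_cast hr.pos)]
      exact_mod_cast hr.one_lt.le
    have bP : rr P ≤ W := by
      have := rr_le_card 1 (fun r hr => one_le r (hPr r hr))
      rw [mul_one] at this
      exact this.trans (by exact_mod_cast cP)
    have bQ : rr Q ≤ W := by
      have := rr_le_card 1 (fun r hr => one_le r (hQr r hr))
      rw [mul_one] at this
      exact this.trans (by exact_mod_cast cQ)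
    have bq : 1 / (q:ℝ) ≤ (y:ℝ) / p := by
      rw [div_le_div_iff₀ hq0 hp0, one_mul]
      have : (p:ℝ) ≤ q * (y:ℝ) := by exact_mod_cast hpq.le
      linarith
    have bQb : rr Qb ≤ W * ((y:ℝ) ^ 2 / p) := by
      have h1 : rr Qb ≤ Qb.card * ((y:ℝ) ^ 2 / p) := by
        refine rr_le_card _ fun r hr => ?_
        obtain ⟨h2, h3⟩ := Finset.mem_filter.mp hr
        have hr0 : (0:ℝ) < r := by exact_mod_cast (hQr r h2).pos
        rw [div_le_div_iff₀ hr0 hp0, one_mul]
        have h4 := notA_prime hg hn hA hp hpn (Nat.dvd_of_mem_primeFactors h2) (not_le.mp h3)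
        have : (p:ℝ) ≤ r * (y:ℝ) := by exact_mod_cast h4.le
        nlinarith
      refine h1.trans ?_
      have : (Qb.card : ℝ) ≤ W := by
        exact_mod_cast (Finset.card_le_card (Finset.filter_subset _ _)).trans cQ
      gcongr
    have bPb : rr Pb ≤ W * ((y:ℝ) ^ 2 / p) := by
      have h1 : rr Pb ≤ Pb.card * ((y:ℝ) ^ 2 / p) := by
        refine rr_le_card _ fun r hr => ?_
        obtain ⟨h2, h3⟩ := Finset.mem_filter.mp hr
        have hr0 : (0:ℝ) < r := by exact_mod_cast (hPr r h2).pos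
        have hrn : r ∣ ad (ad n) := by rw [hg.2.2]; exact Nat.dvd_of_mem_primeFactors h2
        have h5 := notA_prime hgm hm hB hq hqm hrn (not_le.mp h3)
        have h4 : 1 / (r:ℝ) ≤ (y:ℝ) * (1 / q) := by
          rw [mul_one_div, div_le_div_iff₀ hr0 hq0, one_mul]
          have : (q:ℝ) ≤ r * (y:ℝ) := by exact_mod_cast h5.le
          linarith
        calc 1 / (r:ℝ) ≤ (y:ℝ) * (1 / q) := h4
          _ ≤ (y:ℝ) * ((y:ℝ) / p) := by gcongr
          _ = _ := by ring
      refine h1.trans ?_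
      have : (Pb.card : ℝ) ≤ W := by
        exact_mod_cast (Finset.card_le_card (Finset.filter_subset _ _)).trans cP
      gcongr
    have i1 : 1 - rr Ps * rr Qs = rr Pb * rr Q + rr Ps * rr Qb := by
      rw [← e3, e1, e2]; ring
    have up : 1 - rr Ps * rr Qs ≤ 2 * (W:ℝ) ^ 2 * (y:ℝ) ^ 2 / p := by
      have i2 : rr Pb * rr Q ≤ (W * ((y:ℝ) ^ 2 / p)) * W := by
        have := rr_nonneg Q
        gcongr
      have i3 : rr Ps * rr Qb ≤ W * (W * ((y:ℝ) ^ 2 / p)) := by
        have : rr Ps ≤ W := by linarith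
        gcongr
      rw [i1]
      calc _ ≤ (W * ((y:ℝ) ^ 2 / p)) * W + W * (W * ((y:ℝ) ^ 2 / p)) := add_le_add i2 i3
        _ = _ := by ring
    have lt1 : rr Ps * rr Qs < 1 := by
      have i2 : 0 < rr Pb := by
        have : p ∈ Pb := by
          refine Finset.mem_filter.mpr ⟨hpP, ?_⟩
          have : y ≤ y ^ 4 := by
            calc y = y ^ 1 := (pow_one _).symm
              _ ≤ y ^ 4 := Nat.pow_le_pow_right hy (by norm_num)
          omega
        unfold rr
        refine lt_of_lt_of_le (by positivity : 0 < 1 / (p:ℝ)) ?_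
        exact Finset.single_le_sum (f := fun r : ℕ => 1 / (r:ℝ))
          (fun r _ => by positivity) this
      have i3 : 0 < rr Q := by
        by_contra hcon
        have : rr Q = 0 := le_antisymm (not_lt.mp hcon) (rr_nonneg Q)
        rw [this, mul_zero] at e3
        exact zero_ne_one e3
      have i4 : 0 < rr Pb * rr Q := mul_pos i2 i3
      have i5 : 0 ≤ rr Ps * rr Qb := mul_nonneg nPs nQb
      linarith
    -- lower bound
    set t := ∏ r ∈ Ps, r with ht
    set s := ∏ r ∈ Qs, r with hs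
    have f1 : rr Ps * (t:ℝ) = (ad t : ℝ) :=
      rr_eq fun r hr => hPr r (Finset.mem_filter.mp hr).1
    have f2 : rr Qs * (s:ℝ) = (ad s : ℝ) :=
      rr_eq fun r hr => hQr r (Finset.mem_filter.mp hr).1
    have t0 : 0 < t := Finset.prod_pos fun r hr => (hPr r (Finset.mem_filter.mp hr).1).pos
    have s0 : 0 < s := Finset.prod_pos fun r hr => (hQr r (Finset.mem_filter.mp hr).1).pos
    have t0' : (0:ℝ) < t := by exact_mod_cast t0
    have s0' : (0:ℝ) < s := by exact_mod_cast s0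
    have g1 : (ad t : ℝ) * ad s = rr Ps * rr Qs * ((t:ℝ) * s) := by
      rw [← f1, ← f2]; ring
    have g2 : ad t * ad s < t * s := by
      have : (ad t : ℝ) * ad s < (t:ℝ) * s := by
        rw [g1]
        have : 0 < (t:ℝ) * s := by positivity
        nlinarith
      exact_mod_cast this
    have g3 : (ad t : ℝ) * ad s + 1 ≤ (t:ℝ) * s := by exact_mod_cast g2
    have g4 : 1 ≤ (1 - rr Ps * rr Qs) * ((t:ℝ) * s) := by
      rw [sub_mul, one_mul, ← g1]; linarith
    have g5 : (t:ℝ) * s ≤ (y:ℝ) * y := by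
      have h1 : (t:ℝ) ≤ y := by exact_mod_cast s2
      have h2 : (s:ℝ) ≤ y := by exact_mod_cast s1
      gcongr
    have g6 : 1 ≤ (2 * (W:ℝ) ^ 2 * (y:ℝ) ^ 2 / p) * ((y:ℝ) * y) := by
      refine g4.trans ?_
      have : 0 ≤ 1 - rr Ps * rr Qs := by linarith
      gcongr
    have g7 : (p:ℝ) ≤ 2 * (W:ℝ) ^ 2 * (y:ℝ) ^ 4 := by
      have : (2 * (W:ℝ) ^ 2 * (y:ℝ) ^ 2 / p) * ((y:ℝ) * y) =
          (2 * (W:ℝ) ^ 2 * (y:ℝ) ^ 4) / p := by ring
      rw [this, le_div_iff₀ hp0, one_mul] at g6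
      exact g6
    have g8 : p ≤ 2 * W ^ 2 * y ^ 4 := by exact_mod_cast g7
    omega

end Pool.Agent.helper46.BC
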