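import Mathlib
import Pool.Agent.helper46.BC.Str

/-!
# Reduction of the counting function to smooth numbers and the thin set
-/

open Finset

namespace Pool.Agent.helper46.BC

open Classical in
noncomputable def Gset (x : ℕ) : Finset ℕ := (Finset.range (x + 1)).filter good

open Classical in
noncomputable def Smooth (x z : ℕ) : Finset ℕ := (Finset.range (x + 1)).filter (fun n =>
  Squarefree n ∧ ∀ p ∈ n.primeFactors, p ≤ z)

lemma ad_le_mul {n X : ℕ} (hn : Squarefree n) (h : n ≤ X) : ad n ≤ n * Nat.log 2 X := by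
  unfold ad
  calc ∑ p ∈ n.primeFactors, n / p ≤ ∑ p ∈ n.primeFactors, n :=
        Finset.sum_le_sum fun p _ => Nat.div_le_self _ _
    _ = n.primeFactors.card * n := by simp
    _ ≤ Nat.log 2 X * n := Nat.mul_le_mul_right _ (card_le_log hn h)
    _ = _ := mul_comm _ _

theorem count_le {x X y z : ℕ} (hX : 2 ≤ X) (hxX : x ≤ X) (hy : 1 ≤ y)
    (had : ∀ n ≤ x, Squarefree n → ad n ≤ X)
    (hz : 2 * (Nat.log 2 X) ^ 2 * y ^ 4 ≤ z) :
    (Gset x).card ≤ (Smooth x z).card + 2 * (Aset X y).card := by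
  classical
  have hsub : Gset x ⊆ Smooth x z ∪ (Aset X y ∪ (Gset x).filter (fun n => ad n ∈ Aset X y)) := by
    intro n hn
    obtain ⟨h1, h2⟩ := Finset.mem_filter.mp hn
    have hnx : n ≤ x := by simp at h1; omega
    by_cases hs : ∀ p ∈ n.primeFactors, p ≤ z
    · exact Finset.mem_union_left _ (Finset.mem_filter.mpr ⟨h1, h2.1, hs⟩)
    · push Not at hs
      obtain ⟨p, hp, hpz⟩ := hs
      have hp' := Nat.prime_of_mem_primeFactors hp
      refine Finset.mem_union_right _ ?_
      rcases structure_thm hX hy h2 (hnx.trans hxX) (had n hnx h2.1) hp'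
        (Nat.dvd_of_mem_primeFactors hp) (by omega) with h | h
      · exact Finset.mem_union_left _ h
      · exact Finset.mem_union_right _ (Finset.mem_filter.mpr ⟨hn, h⟩)
  have h3 : ((Gset x).filter (fun n => ad n ∈ Aset X y)).card ≤ (Aset X y).card := by
    refine Finset.card_le_card_of_injOn ad (fun n hn => ?_) ?_
    · exact (Finset.mem_filter.mp hn).2
    · intro n hn m hm h
      have hn' := (Finset.mem_filter.mp (Finset.mem_filter.mp hn).1).2
      have hm' := (Finset.mem_filter.mp (Finset.mem_filter.mp hm).1).2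
      exact good_inj hn' hm' h
  calc (Gset x).card ≤ _ := Finset.card_le_card hsub
    _ ≤ (Smooth x z).card + (Aset X y ∪ (Gset x).filter (fun n => ad n ∈ Aset X y)).card :=
      Finset.card_union_le _ _
    _ ≤ (Smooth x z).card + ((Aset X y).card + (Aset X y).card) := by
      gcongr
      exact (Finset.card_union_le _ _).trans (by omega)
    _ = _ := by ring

/-- Rankin's bound for squarefree smooth numbers. -/
theorem smooth_le (x z : ℕ) (σ : ℝ) (hσ : 0 ≤ σ) :
    ((Smooth x z).card : ℝ) ≤ (x:ℝ) ^ σ * Real.exp (∑ p ∈ Nat.primesLE z, (p:ℝ) ^ (-σ)) := by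
  classical
  have h1 : ∀ n ∈ Smooth x z, (1:ℝ) ≤ (x:ℝ) ^ σ * ∏ p ∈ n.primeFactors, (p:ℝ) ^ (-σ) := by
    intro n hn
    obtain ⟨h1, h2, h3⟩ := Finset.mem_filter.mp hn
    have hnx : n ≤ x := by simp at h1; omega
    have hn0 : 0 < n := Nat.pos_of_ne_zero h2.ne_zero
    have e : ∏ p ∈ n.primeFactors, (p:ℝ) ^ (-σ) = (n:ℝ) ^ (-σ) := by
      conv_rhs => rw [← Nat.prod_primeFactors_of_squarefree h2]
      push_cast
      rw [Real.finsetProd_rpow]
      intro i hi
      positivity
    rw [e, Real.rpow_neg (by positivity), ← div_eq_mul_inv, le_div_iff₀ (by positivity), one_mul]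
    exact Real.rpow_le_rpow (by positivity) (by exact_mod_cast hnx) hσ
  calc ((Smooth x z).card : ℝ) = ∑ n ∈ Smooth x z, (1:ℝ) := by simp
    _ ≤ ∑ n ∈ Smooth x z, (x:ℝ) ^ σ * ∏ p ∈ n.primeFactors, (p:ℝ) ^ (-σ) :=
      Finset.sum_le_sum h1
    _ = (x:ℝ) ^ σ * ∑ n ∈ Smooth x z, ∏ p ∈ n.primeFactors, (p:ℝ) ^ (-σ) := by
      rw [Finset.mul_sum]
    _ ≤ (x:ℝ) ^ σ * ∑ S ∈ (Nat.primesLE z).powerset, ∏ p ∈ S, (p:ℝ) ^ (-σ) := by
      have hinj : Set.InjOn Nat.primeFactors (Smooth x z : Set ℕ) := by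
        intro n hn m hm h
        have hn' := (Finset.mem_filter.mp hn).2.1
        have hm' := (Finset.mem_filter.mp hm).2.1
        rw [← Nat.prod_primeFactors_of_squarefree hn', h,
          Nat.prod_primeFactors_of_squarefree hm']
      rw [← Finset.sum_image (f := fun S : Finset ℕ => ∏ p ∈ S, (p:ℝ) ^ (-σ)) hinj]
      gcongr
      intro S hS
      obtain ⟨n, hn, rfl⟩ := Finset.mem_image.mp hS
      rw [Finset.mem_powerset]
      intro p hp
      exact Nat.mem_primesLE.mpr ⟨(Finset.mem_filter.mp hn).2.2 p hp,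
        Nat.prime_of_mem_primeFactors hp⟩
    _ = (x:ℝ) ^ σ * ∏ p ∈ Nat.primesLE z, (1 + (p:ℝ) ^ (-σ)) := by
      rw [Finset.prod_one_add]
    _ ≤ (x:ℝ) ^ σ * ∏ p ∈ Nat.primesLE z, Real.exp ((p:ℝ) ^ (-σ)) := by
      gcongr with p hp
      rw [add_comm]
      exact Real.add_one_le_exp _
    _ = _ := by rw [Real.exp_sum]

end Pool.Agent.helper46.BC
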