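import Mathlib
import Pool.Agent.helper91.Mertens
import Pool.Agent.helper46.BC.Cnt

/-!
# The analytic estimates
-/

open Finset Filter Real

namespace Pool.Agent.helper46.BC

lemma primes_inv (z : ℕ) (hz : 1 ≤ z) (u : ℝ) (hu : 0 < u) :
    ∑ p ∈ Nat.primesLE z, (1:ℝ) / p ≤ 1 + u + (Real.log z + Real.log 4) / u := by
  have hM := Pool.Agent.helper91.Mertens.upper hz
  unfold Pool.Agent.helper91.Mertens.M at hM
  have h1 : ∀ p ∈ Nat.primesLE z, (1:ℝ) / p ≤
      (if p ≤ ⌊Real.exp u⌋₊ then (1:ℝ) / p else 0) + (Real.log p / p) / u := by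
    intro p hp
    have hp' := Nat.prime_of_mem_primesLE hp
    have hp0 : (0:ℝ) < p := by exact_mod_cast hp'.pos
    have hl : 0 ≤ Real.log p := Real.log_natCast_nonneg p
    split_ifs with h
    · have : 0 ≤ (Real.log p / p) / u := by positivity
      linarith
    · rw [zero_add, div_div, div_le_div_iff₀ hp0 (by positivity)]
      have h2 : Real.exp u < p := by
        by_contra hcon
        exact h ((Nat.le_floor_iff (Real.exp_pos u).le).mpr (not_lt.mp hcon))
      have h3 : u ≤ Real.log p := by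
        rw [Real.le_log_iff_exp_le hp0]; exact h2.le
      nlinarith
  refine (Finset.sum_le_sum h1).trans ?_
  rw [Finset.sum_add_distrib, ← Finset.sum_div, ← Finset.sum_filter]
  have h2 : ∑ p ∈ (Nat.primesLE z).filter (fun p => p ≤ ⌊Real.exp u⌋₊), (1:ℝ) / p ≤ 1 + u := by
    have h3 : ∑ p ∈ (Nat.primesLE z).filter (fun p => p ≤ ⌊Real.exp u⌋₊), (1:ℝ) / p ≤
        ∑ p ∈ Finset.Icc 1 ⌊Real.exp u⌋₊, (1:ℝ) / p := by
      refine Finset.sum_le_sum_of_subset_of_nonneg (fun p hp => ?_) (fun p _ _ => by positivity)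
      obtain ⟨h4, h5⟩ := Finset.mem_filter.mp hp
      exact Finset.mem_Icc.mpr ⟨(Nat.prime_of_mem_primesLE h4).one_lt.le, h5⟩
    refine h3.trans ?_
    have h6 := harmonic_le_one_add_log ⌊Real.exp u⌋₊
    rw [harmonic_eq_sum_Icc] at h6
    push_cast at h6
    have h7 : Real.log ⌊Real.exp u⌋₊ ≤ u := by
      have h8 : (0:ℝ) < ⌊Real.exp u⌋₊ := by
        have : 1 ≤ ⌊Real.exp u⌋₊ := Nat.floor_pos.mpr (Real.one_le_exp hu.le)
        exact_mod_cast this
      rw [Real.log_le_iff_le_exp h8]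
      exact Nat.floor_le (Real.exp_pos u).le
    simp only [one_div]
    linarith
  have h3 : (∑ p ∈ Nat.primesLE z, Real.log p / p) / u ≤ (Real.log z + Real.log 4) / u := by
    gcongr
  linarith

lemma exp_le_aux (t : ℝ) : Real.exp t ≤ 1 + t * Real.exp t := by
  have h := Real.add_one_le_exp (-t)
  have h2 : Real.exp (-t) * Real.exp t = 1 := by rw [← Real.exp_add]; simp
  have h3 := Real.exp_pos t
  nlinarith

lemma sum_rpow_le (z : ℕ) (hz : 1 ≤ z) (η : ℝ) (hη : 0 ≤ η) :
    ∑ p ∈ Nat.primesLE z, (p:ℝ) ^ (-(1 - η)) ≤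
      ∑ p ∈ Nat.primesLE z, (1:ℝ) / p + η * (z:ℝ) ^ η * (Real.log z + Real.log 4) := by
  have hM := Pool.Agent.helper91.Mertens.upper hz
  unfold Pool.Agent.helper91.Mertens.M at hM
  have h1 : ∀ p ∈ Nat.primesLE z, (p:ℝ) ^ (-(1 - η)) ≤
      (1:ℝ) / p + η * (z:ℝ) ^ η * (Real.log p / p) := by
    intro p hp
    have hp' := Nat.mem_primesLE.mp hp
    have hp0 : (0:ℝ) < p := by exact_mod_cast hp'.2.pos
    have hl : 0 ≤ Real.log p := Real.log_natCast_nonneg p
    have e1 : (p:ℝ) ^ (-(1 - η)) = (p:ℝ) ^ η / p := by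
      rw [show -(1 - η) = η - 1 by ring, Real.rpow_sub_one hp0.ne']
    have e2 : (p:ℝ) ^ η ≤ 1 + η * Real.log p * (z:ℝ) ^ η := by
      have h3 : (p:ℝ) ^ η = Real.exp (Real.log p * η) := Real.rpow_def_of_pos hp0 η
      have h4 := exp_le_aux (Real.log p * η)
      rw [← h3] at h4
      have h5 : (p:ℝ) ^ η ≤ (z:ℝ) ^ η :=
        Real.rpow_le_rpow hp0.le (by exact_mod_cast hp'.1) hη
      calc (p:ℝ) ^ η ≤ 1 + Real.log p * η * (p:ℝ) ^ η := h4
        _ ≤ 1 + Real.log p * η * (z:ℝ) ^ η := by gcongr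
        _ = _ := by ring
    rw [e1]
    calc (p:ℝ) ^ η / p ≤ (1 + η * Real.log p * (z:ℝ) ^ η) / p := by gcongr
      _ = _ := by ring
  refine (Finset.sum_le_sum h1).trans ?_
  rw [Finset.sum_add_distrib, ← Finset.mul_sum]
  gcongr

/-- the main exponent -/
noncomputable def ff (L : ℝ) : ℝ := Real.sqrt (L * Real.log L)

lemma tendsto_ff : Tendsto ff atTop atTop := by
  unfold ff
  exact Real.tendsto_sqrt_atTop.comp (tendsto_id.atTop_mul_atTop₀ Real.tendsto_log_atTop)

lemma ev_log {α e : ℝ} (hα : α < 1 / 2) (he : 0 < e) :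
    ∀ᶠ L : ℝ in atTop, 3 * Real.log L * L ^ α ≤ e * Real.sqrt L := by
  have h := isLittleO_log_rpow_atTop (show (0:ℝ) < 1 / 2 - α by linarith)
  have h2 := h.bound (show (0:ℝ) < e / 3 by positivity)
  filter_upwards [h2, eventually_ge_atTop (1:ℝ)] with L hL h1
  have h0 : (0:ℝ) < L := by linarith
  have hl : 0 ≤ Real.log L := Real.log_nonneg h1
  rw [Real.norm_of_nonneg hl, Real.norm_of_nonneg (by positivity)] at hL
  have e1 : L ^ (1 / 2 - α) * L ^ α = Real.sqrt L := by
    rw [← Real.rpow_add h0, Real.sqrt_eq_rpow]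
    congr 1
    ring
  calc 3 * Real.log L * L ^ α ≤ 3 * (e / 3 * L ^ (1 / 2 - α)) * L ^ α := by gcongr
    _ = e * (L ^ (1 / 2 - α) * L ^ α) := by ring
    _ = _ := by rw [e1]

lemma ev_sqrt {k e : ℝ} (hk : 0 ≤ k) (he : 0 < e) : ∀ᶠ f : ℝ in atTop,
    1 + Real.sqrt f + (k * f + Real.log 4) / Real.sqrt f + Real.log 2 ≤ e * f := by
  have t : Tendsto Real.sqrt atTop atTop := Real.tendsto_sqrt_atTop
  filter_upwards [t.eventually_ge_atTop 2, t.eventually_ge_atTop ((k + 4) / e),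
    eventually_ge_atTop (0:ℝ)] with f h1 h2 h3
  have hl2 : Real.log 2 ≤ 1 := by
    have := Real.log_two_lt_d9; linarith
  have h4 : Real.log 4 ≤ 2 := by
    rw [show (4:ℝ) = 2 ^ 2 by norm_num, Real.log_pow]; push_cast; linarith
  set g := Real.sqrt f with hg
  have hg2 : g * g = f := Real.mul_self_sqrt h3
  have hdiv : (k * f + Real.log 4) / g ≤ k * g + 1 := by
    rw [div_le_iff₀ (by linarith)]
    nlinarith
  have h5 : k + 4 ≤ g * e := by rwa [div_le_iff₀ he] at h2
  have h6 : (k + 4) * g ≤ e * f := by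
    rw [← hg2]
    calc (k + 4) * g ≤ (g * e) * g := by gcongr
      _ = _ := by ring
  nlinarith

lemma rpow_x {x a l f : ℝ} (hx0 : 0 < x) (hf0 : 0 < f) (hff : f * f = Real.log x * l) :
    x ^ (1 - a * (l / f)) = x * Real.exp (-a * f) := by
  rw [Real.rpow_sub hx0, Real.rpow_one, div_eq_mul_inv, ← Real.rpow_neg hx0.le,
    Real.rpow_def_of_pos hx0]
  congr 2
  have h1 : Real.log x * (l / f) = f := by
    rw [mul_div_assoc', ← hff]
    exact mul_div_cancel_right₀ f hf0.ne'
  calc Real.log x * -(a * (l / f)) = -a * (Real.log x * (l / f)) := by ring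
    _ = _ := by rw [h1]

lemma eta_eq {k α l f : ℝ} (hk0 : 0 < k) (hf0 : 0 < f) :
    k * f * (α / k * (l / f)) = l * α := by
  field_simp

lemma eta_bound {k α l f : ℝ} (hk0 : 0 < k) (hf0 : 0 < f) (hα : α ≤ 1 / 2) (hl : 1 ≤ l)
    (hη1 : α / k * (l / f) ≤ 1) : α / k * (l / f) * (k * f + 2) ≤ 3 * l := by
  have h1 : α / k * (l / f) * (k * f + 2) = α * l + 2 * (α / k * (l / f)) := by
    rw [mul_add, mul_comm (α / k * (l / f)) (k * f), eta_eq hk0 hf0]
    ring
  rw [h1]
  nlinarith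

/-- the smooth part is small -/
theorem smooth_asymp {c : ℝ} (hc : c < Real.sqrt 2 / 4) : ∀ᶠ x : ℕ in atTop,
    ((Smooth x ⌊Real.exp (Real.sqrt 2 * ff (Real.log x))⌋₊).card : ℝ) ≤
      x * Real.exp (-c * ff (Real.log x)) / 2 := by
  set k := Real.sqrt 2 with hk
  have hk2 : k * k = 2 := Real.mul_self_sqrt (by norm_num)
  have hk1 : 1 ≤ k := by
    rw [hk]; exact Real.one_le_sqrt.mpr (by norm_num)
  have hk0 : 0 < k := by linarith
  set e := k / 4 - c with he
  have he0 : 0 < e := by rw [he]; linarith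
  set α := max 0 (1 / 2 - e / 2) with hα
  have hα0 : 0 ≤ α := le_max_left _ _
  have hα1 : α < 1 / 2 := by
    rw [hα]; exact max_lt (by norm_num) (by linarith)
  have hα2 : c + e / 2 ≤ α / k := by
    have h1 : 1 / 2 - e / 2 ≤ α := le_max_right _ _
    rw [le_div_iff₀ hk0]
    have h2 : c = k / 4 - e := by rw [he]; ring
    rw [h2]
    nlinarith
  have tl : Tendsto (fun x : ℕ => Real.log x) atTop atTop :=
    Real.tendsto_log_atTop.comp tendsto_natCast_atTop_atTop
  have tf : Tendsto (fun x : ℕ => ff (Real.log x)) atTop atTop := tendsto_ff.comp tl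
  have tll : Tendsto (fun x : ℕ => Real.log (Real.log x)) atTop atTop :=
    Real.tendsto_log_atTop.comp tl
  filter_upwards [tl.eventually (ev_log hα1 (show 0 < e / 4 by positivity)),
    tf.eventually (ev_sqrt hk0.le (show 0 < e / 4 by positivity)),
    tl.eventually_ge_atTop 1, tll.eventually_ge_atTop 1, eventually_ge_atTop 1,
    tf.eventually_ge_atTop 1]
    with x h1 h2 h3 h4 h5 hf1
  set L := Real.log x with hL
  set l := Real.log L with hl
  set f := ff L with hf
  have hx0 : (0:ℝ) < x := by exact_mod_cast h5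
  have hL0 : 0 < L := by linarith
  have hff : f * f = L * l := by
    rw [hf]; unfold ff
    exact Real.mul_self_sqrt (by positivity)
  have hf0 : 0 < f := by linarith
  have hfL : Real.sqrt L ≤ f := by
    rw [hf]; unfold ff
    apply Real.sqrt_le_sqrt
    nlinarith
  set z := ⌊Real.exp (k * f)⌋₊ with hz
  have hkf : 0 ≤ k * f := by positivity
  have hz1 : 1 ≤ z := Nat.floor_pos.mpr (Real.one_le_exp hkf)
  have hz0 : (0:ℝ) < z := by exact_mod_cast hz1
  have hzle : (z:ℝ) ≤ Real.exp (k * f) := Nat.floor_le (Real.exp_pos _).le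
  have hlz : Real.log z ≤ k * f := by
    rw [Real.log_le_iff_le_exp hz0]; exact hzle
  set η := (α / k) * (l / f) with hη
  have hlf : l ≤ f := by
    have h6 : l ≤ L := by
      have := Real.log_le_sub_one_of_pos hL0
      linarith
    have : l * l ≤ f * f := by rw [hff]; nlinarith
    nlinarith
  have hη0 : 0 ≤ η := by positivity
  have hη1 : η ≤ 1 := by
    have h6 : l / f ≤ 1 := by rw [div_le_one hf0]; exact hlf
    have h7 : α / k ≤ 1 := by rw [div_le_one hk0]; linarith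
    have h8 : 0 ≤ α / k := by positivity
    have h9 : 0 ≤ l / f := by positivity
    rw [hη]; nlinarith
  have h6 := smooth_le x z (1 - η) (by linarith)
  have h7 := sum_rpow_le z hz1 η hη0
  have h8 := primes_inv z hz1 (Real.sqrt f) (Real.sqrt_pos.mpr hf0)
  have hzη : (z:ℝ) ^ η ≤ L ^ α := by
    calc (z:ℝ) ^ η ≤ (Real.exp (k * f)) ^ η := Real.rpow_le_rpow hz0.le hzle hη0
      _ = Real.exp (k * f * η) := by rw [← Real.exp_mul]
      _ = Real.exp (l * α) := by rw [hη, eta_eq hk0 hf0]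
      _ = L ^ α := by rw [Real.rpow_def_of_pos hL0]
  have hl4 : Real.log 4 ≤ 2 := by
    have h9 := Real.log_two_lt_d9
    rw [show (4:ℝ) = 2 ^ 2 by norm_num, Real.log_pow]; push_cast; linarith
  have hlz0 : 0 ≤ Real.log z := Real.log_natCast_nonneg z
  have hl40 : 0 ≤ Real.log 4 := Real.log_nonneg (by norm_num)
  have h10 : η * (z:ℝ) ^ η * (Real.log z + Real.log 4) ≤ 3 * l * L ^ α := by
    have i1 : η * (Real.log z + Real.log 4) ≤ 3 * l := by
      calc η * (Real.log z + Real.log 4) ≤ η * (k * f + 2) := by gcongr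
        _ ≤ 3 * l := eta_bound hk0 hf0 hα1.le h4 hη1
    calc η * (z:ℝ) ^ η * (Real.log z + Real.log 4) =
        (η * (Real.log z + Real.log 4)) * (z:ℝ) ^ η := by ring
      _ ≤ (3 * l) * L ^ α := by
        have : 0 ≤ η * (Real.log z + Real.log 4) := by positivity
        gcongr
  have h11 : (Real.log z + Real.log 4) / Real.sqrt f ≤ (k * f + Real.log 4) / Real.sqrt f := by
    gcongr
  have hsum : ∑ p ∈ Nat.primesLE z, (p:ℝ) ^ (-(1 - η)) ≤ e / 2 * f - Real.log 2 := by
    have : e / 4 * Real.sqrt L ≤ e / 4 * f := by gcongr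
    linarith
  have hxσ : (x:ℝ) ^ (1 - η) = x * Real.exp (-(α / k) * f) := rpow_x hx0 hf0 hff
  calc ((Smooth x z).card : ℝ) ≤ (x:ℝ) ^ (1 - η) *
        Real.exp (∑ p ∈ Nat.primesLE z, (p:ℝ) ^ (-(1 - η))) := h6
    _ ≤ (x:ℝ) ^ (1 - η) * Real.exp (e / 2 * f - Real.log 2) := by gcongr
    _ = x * Real.exp (-(α / k) * f + e / 2 * f - Real.log 2) := by
      rw [hxσ, mul_assoc, ← Real.exp_add]
      congr 2
      ring
    _ ≤ x * Real.exp (-c * f - Real.log 2) := by
      have : (c + e / 2) * f ≤ α / k * f := mul_le_mul_of_nonneg_right hα2 hf0.le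
      gcongr
      linarith
    _ = x * Real.exp (-c * f) / 2 := by
      rw [Real.exp_sub, Real.exp_log (by norm_num)]; ring

end Pool.Agent.helper46.BC
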