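import Mathlib
import Pool.Agent.helper46.BC.An

/-!
# The counting function by size
-/

open Finset Filter Real

namespace Pool.Agent.helper46.BC

lemma ev_pow {b : ℝ} (hb : 0 < b) : ∀ᶠ f : ℝ in atTop, 72 * f ^ 4 ≤ Real.exp (b * f) := by
  have h := isLittleO_pow_exp_pos_mul_atTop (b := b) 4 hb
  have h2 := h.bound (show (0:ℝ) < 1 / 72 by norm_num)
  filter_upwards [h2, eventually_ge_atTop (1:ℝ)] with f hf h1
  rw [Real.norm_of_nonneg (by positivity), Real.norm_of_nonneg (by positivity)] at hf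
  linarith

theorem Gset_asymp0 {c : ℝ} (hc0 : 1 / 3 ≤ c) (hc : c < Real.sqrt 2 / 4) : ∀ᶠ x : ℕ in atTop,
    ((Gset x).card : ℝ) ≤ x * Real.exp (-c * ff (Real.log x)) := by
  set k := Real.sqrt 2 with hk
  have hk2 : k * k = 2 := Real.mul_self_sqrt (by norm_num)
  have hk1 : 1 ≤ k := by
    rw [hk]; exact Real.one_le_sqrt.mpr (by norm_num)
  have hk0 : 0 < k := by linarith
  set e := (k / 4 - c) / 2 with he
  have he0 : 0 < e := by rw [he]; linarith
  set v := c + e with hv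
  have hv4 : 4 * v = k - 4 * e := by rw [hv, he]; ring
  have hv0 : 1 / 3 ≤ v := by rw [hv]; linarith
  have tl : Tendsto (fun x : ℕ => Real.log x) atTop atTop :=
    Real.tendsto_log_atTop.comp tendsto_natCast_atTop_atTop
  have tf : Tendsto (fun x : ℕ => ff (Real.log x)) atTop atTop := tendsto_ff.comp tl
  have tll : Tendsto (fun x : ℕ => Real.log (Real.log x)) atTop atTop :=
    Real.tendsto_log_atTop.comp tl
  filter_upwards [smooth_asymp hc, tf.eventually (ev_pow he0), tf.eventually_ge_atTop 10,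
    tl.eventually_ge_atTop 1, tll.eventually_ge_atTop 1, eventually_ge_atTop 4]
    with x h1 h2 h3 h4 h5 h6
  set L := Real.log x with hL
  set f := ff L with hf
  have hx0 : (0:ℝ) < x := by
    have : 0 < x := by omega
    exact_mod_cast this
  have hL0 : 0 < L := by linarith
  have hf0 : 0 < f := by linarith
  have hff : f * f = L * Real.log L := by
    rw [hf]; unfold ff
    exact Real.mul_self_sqrt (by positivity)
  have hLf : L ≤ f ^ 2 := by nlinarith
  set z := ⌊Real.exp (k * f)⌋₊ with hz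
  set y := ⌊Real.exp (v * f)⌋₊ with hy
  set W := Nat.log 2 x with hW
  set X := x * W with hX
  have hvf : 1 ≤ v * f := by nlinarith
  have hW1 : 1 ≤ W := Nat.log_pos (by norm_num) (by omega)
  have hWx : W ≤ x := (Nat.log_lt_self 2 (by omega)).le
  have hxX : x ≤ X := Nat.le_mul_of_pos_right x hW1
  have hX2 : 2 ≤ X := by omega
  have hy1 : 1 ≤ y := Nat.floor_pos.mpr (Real.one_le_exp (by linarith))
  have hy0 : (0:ℝ) < y := by exact_mod_cast hy1
  have hyle : (y:ℝ) ≤ Real.exp (v * f) := Nat.floor_le (Real.exp_pos _).le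
  have hyge : Real.exp (v * f) / 2 ≤ y := by
    have h7 : Real.exp (v * f) < y + 1 := Nat.lt_floor_add_one _
    have h8 : (2:ℝ) ≤ Real.exp (v * f) := by
      have := Real.add_one_le_exp (v * f)
      linarith
    linarith
  have hzge : Real.exp (k * f) - 1 ≤ z := by
    have h7 : Real.exp (k * f) < z + 1 := Nat.lt_floor_add_one _
    linarith
  have hl2 : (0.69:ℝ) ≤ Real.log 2 := by
    have := Real.log_two_gt_d9; linarith
  have natlog : ∀ n : ℕ, 1 ≤ n → (Nat.log 2 n : ℝ) ≤ 1.5 * Real.log n := by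
    intro n hn
    have h7 : (2:ℝ) ^ (Nat.log 2 n) ≤ n := by
      exact_mod_cast Nat.pow_log_le_self 2 (by omega)
    have h8 := Real.log_le_log (by positivity) h7
    rw [Real.log_pow] at h8
    have h9 : (0:ℝ) ≤ Nat.log 2 n := Nat.cast_nonneg _
    nlinarith
  have hWr : (W:ℝ) ≤ 1.5 * L := natlog x (by omega)
  have hXle : (X:ℝ) ≤ (x:ℝ) ^ 2 := by
    rw [hX, sq]
    push_cast
    have : (W:ℝ) ≤ x := by exact_mod_cast hWx
    gcongr
  have hX0 : (0:ℝ) < X := by
    have : 0 < X := by omega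
    exact_mod_cast this
  have hlX : Real.log X ≤ 2 * L := by
    have := Real.log_le_log hX0 hXle
    rw [Real.log_pow] at this
    push_cast at this
    exact this
  have hlogX : (Nat.log 2 X : ℝ) ≤ 3 * L := by
    have := natlog X (by omega)
    linarith
  have hz2 : 2 * (Nat.log 2 X) ^ 2 * y ^ 4 ≤ z := by
    have h7 : (2:ℝ) * (Nat.log 2 X : ℝ) ^ 2 * (y:ℝ) ^ 4 ≤ z := by
      calc (2:ℝ) * (Nat.log 2 X : ℝ) ^ 2 * (y:ℝ) ^ 4 ≤
          2 * (3 * L) ^ 2 * (Real.exp (v * f)) ^ 4 := by gcongr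
        _ ≤ 2 * (3 * f ^ 2) ^ 2 * (Real.exp (v * f)) ^ 4 := by gcongr
        _ = 18 * f ^ 4 * Real.exp (4 * v * f) := by
          rw [← Real.exp_nat_mul]
          rw [show ((4:ℕ):ℝ) * (v * f) = 4 * v * f by push_cast; ring]
          ring
        _ ≤ 72 * f ^ 4 * Real.exp (4 * v * f) - 1 := by
          have e1 : (1:ℝ) ≤ Real.exp (4 * v * f) := Real.one_le_exp (by nlinarith)
          have e2 : (1:ℝ) ≤ f ^ 4 := one_le_pow₀ (by linarith)
          nlinarith
        _ ≤ Real.exp (e * f) * Real.exp (4 * v * f) - 1 := by gcongr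
        _ = Real.exp ((k - 3 * e) * f) - 1 := by
          rw [← Real.exp_add, hv4]; congr 2; ring
        _ ≤ Real.exp (k * f) - 1 := by gcongr; linarith
        _ ≤ z := hzge
    exact_mod_cast h7
  have had : ∀ n ≤ x, Squarefree n → ad n ≤ X := fun n hn hs =>
    (ad_le_mul hs hn).trans (Nat.mul_le_mul_right _ hn)
  have key := count_le hX2 hxX hy1 had hz2
  have key' : ((Gset x).card : ℝ) ≤ (Smooth x z).card + 2 * (Aset X y).card := by
    exact_mod_cast key
  have hA := card_Aset X y (by omega) hy1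
  have hA2 : 2 * ((Aset X y).card : ℝ) ≤ x * Real.exp (-c * f) / 2 := by
    calc 2 * ((Aset X y).card : ℝ) ≤ 2 * (2 * X * (1 + Real.log X) / y) := by gcongr
      _ ≤ 2 * (2 * X * (3 * L) / (Real.exp (v * f) / 2)) := by
        have : 1 + Real.log X ≤ 3 * L := by linarith
        gcongr
      _ = 24 * (x:ℝ) * W * L * Real.exp (-(v * f)) := by
        rw [hX, Real.exp_neg]
        push_cast
        field_simp
        ring
      _ ≤ 24 * (x:ℝ) * (1.5 * L) * L * Real.exp (-(v * f)) := by gcongr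
      _ = (x:ℝ) * (36 * L ^ 2) * Real.exp (-(v * f)) := by ring
      _ ≤ (x:ℝ) * (36 * (f ^ 2) ^ 2) * Real.exp (-(v * f)) := by gcongr
      _ = (x:ℝ) * (72 * f ^ 4) * Real.exp (-(v * f)) / 2 := by ring
      _ ≤ (x:ℝ) * Real.exp (e * f) * Real.exp (-(v * f)) / 2 := by gcongr
      _ = x * Real.exp (-c * f) / 2 := by
        rw [mul_assoc, ← Real.exp_add]
        congr 3
        rw [hv]
        ring
  linarith

theorem Gset_asymp {c : ℝ} (hc : c < Real.sqrt 2 / 4) : ∀ᶠ x : ℕ in atTop,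
    ((Gset x).card : ℝ) ≤ x * Real.exp (-c * ff (Real.log x)) := by
  have h13 : (1:ℝ) / 3 < Real.sqrt 2 / 4 := by
    have : (4:ℝ) / 3 < Real.sqrt 2 := by
      apply Real.lt_sqrt_of_sq_lt
      norm_num
    linarith
  have h := Gset_asymp0 (c := max c (1 / 3)) (le_max_right _ _) (max_lt hc h13)
  filter_upwards [h] with x hx
  refine hx.trans ?_
  have hf : 0 ≤ ff (Real.log x) := Real.sqrt_nonneg _
  have hm : c ≤ max c (1 / 3) := le_max_left _ _
  gcongr

/-- solutions with `∏ P ≤ x` -/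
def Sol (x : ℕ) : Set (Finset ℕ × Finset ℕ) :=
  {s | (∀ p ∈ s.1, p.Prime) ∧ (∀ q ∈ s.2, q.Prime) ∧
    (∑ p ∈ s.1, (1:ℚ) / p) * (∑ q ∈ s.2, (1:ℚ) / q) = 1 ∧ ∏ p ∈ s.1, p ≤ x}

lemma squarefree_prod {S : Finset ℕ} (h : ∀ p ∈ S, p.Prime) : Squarefree (∏ p ∈ S, p) := by
  refine Finset.squarefree_prod_of_pairwise_isCoprime (fun p hp q hq hpq => ?_)
    (fun p hp => (h p hp).squarefree)
  exact Nat.coprime_iff_isRelPrime.mp ((Nat.coprime_primes (h p hp) (h q hq)).mpr hpq)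

lemma cast_rr (S : Finset ℕ) : ((∑ p ∈ S, (1:ℚ) / p : ℚ) : ℝ) = rr S := by
  unfold rr
  push_cast
  rfl

lemma ad_prod {S : Finset ℕ} (h : ∀ p ∈ S, p.Prime) :
    (ad (∏ p ∈ S, p) : ℝ) = (∏ p ∈ S, p : ℕ) * rr S := by
  rw [ad_eq, Nat.primeFactors_prod h]

/-- the two cycle -/
lemma sol_good {P Q : Finset ℕ} (hP : ∀ p ∈ P, p.Prime) (hQ : ∀ q ∈ Q, q.Prime)
    (h : (∑ p ∈ P, (1:ℚ) / p) * (∑ q ∈ Q, (1:ℚ) / q) = 1) :
    good (∏ p ∈ P, p) ∧ ad (∏ p ∈ P, p) = ∏ q ∈ Q, q := by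
  set N := ∏ p ∈ P, p with hN
  set M := ∏ q ∈ Q, q with hM
  have sN : Squarefree N := squarefree_prod hP
  have sM : Squarefree M := squarefree_prod hQ
  have e1 : (ad N : ℝ) = N * rr P := ad_prod hP
  have e2 : (ad M : ℝ) = M * rr Q := ad_prod hQ
  have e3 : rr P * rr Q = 1 := by
    rw [← cast_rr, ← cast_rr]
    exact_mod_cast h
  have e4 : ad N * ad M = N * M := by
    have : (ad N : ℝ) * ad M = N * M := by
      rw [e1, e2]
      linear_combination (N:ℝ) * M * e3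
    exact_mod_cast this
  have c1 := coprime_ad sN
  have c2 := coprime_ad sM
  have d1 : N ∣ ad M := c1.dvd_of_dvd_mul_left (by rw [e4]; exact Dvd.intro _ rfl)
  have d2 : ad M ∣ N := c2.symm.dvd_of_dvd_mul_right (by rw [← e4]; exact Dvd.intro_left _ rfl)
  have e5 : ad M = N := Nat.dvd_antisymm d2 d1
  have N0 : 0 < N := Nat.pos_of_ne_zero sN.ne_zero
  have e6 : ad N = M := by
    rw [e5, mul_comm] at e4
    exact Nat.eq_of_mul_eq_mul_left N0 e4
  refine ⟨⟨sN, ?_, ?_⟩, e6⟩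
  · rw [e6]; exact sM
  · rw [e6, e5]

lemma sol_inj {x : ℕ} : Set.InjOn (fun s : Finset ℕ × Finset ℕ => ∏ p ∈ s.1, p) (Sol x) := by
  rintro ⟨P, Q⟩ h1 ⟨P', Q'⟩ h2 h
  obtain ⟨a1, a2, a3, a4⟩ := h1
  obtain ⟨b1, b2, b3, b4⟩ := h2
  simp only at h a1 a2 a3 b1 b2 b3
  have g1 := (sol_good a1 a2 a3).2
  have g2 := (sol_good b1 b2 b3).2
  have e1 : P = P' := by
    rw [← Nat.primeFactors_prod a1, h, Nat.primeFactors_prod b1]
  have e2 : Q = Q' := by
    rw [← Nat.primeFactors_prod a2, ← g1, h, g2, Nat.primeFactors_prod b2]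
  rw [e1, e2]

theorem sol_card (x : ℕ) : (Sol x).Finite ∧ (Sol x).ncard ≤ (Gset x).card := by
  classical
  have hm : Set.MapsTo (fun s : Finset ℕ × Finset ℕ => ∏ p ∈ s.1, p) (Sol x)
      (Gset x : Set ℕ) := by
    rintro ⟨P, Q⟩ ⟨a1, a2, a3, a4⟩
    refine Finset.mem_coe.mpr (Finset.mem_filter.mpr ⟨?_, (sol_good a1 a2 a3).1⟩)
    simp only at a4
    simp only [Finset.mem_range]
    omega
  have hf : (Sol x).Finite := Set.Finite.of_injOn hm sol_inj (Finset.finite_toSet _)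
  refine ⟨hf, ?_⟩
  have := Set.ncard_le_ncard_of_injOn _ hm sol_inj (Finset.finite_toSet _)
  rwa [Set.ncard_coe_finset] at this

theorem partA (c : ℝ) (hc : c < Real.sqrt 2 / 4) : ∃ x₀ : ℕ, ∀ x : ℕ, x₀ ≤ x →
    (Sol x).Finite ∧ ((Sol x).ncard : ℝ) ≤
      x * Real.exp (-c * Real.sqrt (Real.log x * Real.log (Real.log x))) := by
  obtain ⟨x₀, h⟩ := Filter.eventually_atTop.mp (Gset_asymp hc)
  refine ⟨x₀, fun x hx => ⟨(sol_card x).1, ?_⟩⟩
  have h1 := h x hx
  unfold ff at h1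
  exact le_trans (by exact_mod_cast (sol_card x).2) h1

end Pool.Agent.helper46.BC
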