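import Mathlib

/-!
# The numerator of a sum of unit fractions over a set of coprime integers
-/

open Finset

namespace Pool.Agent.helper46.BC

/-- `∑_{a ∈ S} ∏_{b ∈ S, b ≠ a} b`, the numerator of `∑ 1/a` over the denominator `∏ a`. -/
def dv (S : Finset ℕ) : ℕ := ∑ a ∈ S, ∏ b ∈ S.erase a, b

lemma dv_mul (S : Finset ℕ) (h : ∀ a ∈ S, 0 < a) :
    (∑ a ∈ S, (1:ℚ)/a) * ((∏ a ∈ S, a : ℕ) : ℚ) = (dv S : ℚ) := by
  rw [dv, Finset.sum_mul, Nat.cast_sum]
  refine Finset.sum_congr rfl fun a ha => ?_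
  have h0 : (a:ℚ) ≠ 0 := by exact_mod_cast (h a ha).ne'
  rw [← Finset.mul_prod_erase S (fun a => a) ha]
  push_cast
  field_simp

lemma dvd_prod_erase {S : Finset ℕ} {a b : ℕ} (ha : a ∈ S) (hab : a ≠ b) :
    a ∣ ∏ x ∈ S.erase b, x :=
  Finset.dvd_prod_of_mem (fun x => x) (Finset.mem_erase.mpr ⟨hab, ha⟩)

lemma dv_modEq {S : Finset ℕ} {a : ℕ} (ha : a ∈ S) :
    dv S ≡ ∏ b ∈ S.erase a, b [MOD a] := by
  rw [dv, ← Finset.add_sum_erase S _ ha]
  have : a ∣ ∑ x ∈ S.erase a, ∏ b ∈ S.erase x, b := by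
    refine Finset.dvd_sum fun x hx => ?_
    exact dvd_prod_erase ha (Finset.ne_of_mem_erase hx).symm
  calc (∏ b ∈ S.erase a, b) + ∑ x ∈ S.erase a, ∏ b ∈ S.erase x, b
      ≡ (∏ b ∈ S.erase a, b) + 0 [MOD a] :=
        Nat.ModEq.add_left _ ((Nat.modEq_zero_iff_dvd).mpr this)
    _ = _ := by simp

lemma coprime_erase {S : Finset ℕ} (hc : (S : Set ℕ).Pairwise Nat.Coprime) {a : ℕ} (ha : a ∈ S) :
    Nat.Coprime (∏ b ∈ S.erase a, b) a := by
  refine Nat.Coprime.prod_left fun b hb => ?_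
  have hb' := Finset.mem_erase.mp hb
  exact hc (by exact_mod_cast hb'.2) (by exact_mod_cast ha) hb'.1

lemma coprime_dv {S : Finset ℕ} (hc : (S : Set ℕ).Pairwise Nat.Coprime) :
    Nat.Coprime (dv S) (∏ a ∈ S, a) := by
  refine Nat.Coprime.prod_right fun a ha => ?_
  have h1 : Nat.gcd (dv S) a = Nat.gcd (∏ b ∈ S.erase a, b) a := (dv_modEq ha).gcd_eq
  have h2 := coprime_erase hc ha
  unfold Nat.Coprime at *
  rw [h1, h2]

/-- the two cycle of the derivative -/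
lemma cycle {A B : Finset ℕ} (hA : ∀ a ∈ A, 0 < a) (hB : ∀ b ∈ B, 0 < b)
    (cA : (A : Set ℕ).Pairwise Nat.Coprime) (cB : (B : Set ℕ).Pairwise Nat.Coprime)
    (h : (∑ a ∈ A, (1:ℚ)/a) * (∑ b ∈ B, (1:ℚ)/b) = 1) :
    dv A = ∏ b ∈ B, b ∧ dv B = ∏ a ∈ A, a := by
  have h1 := dv_mul A hA
  have h2 := dv_mul B hB
  have h3 : dv A * dv B = (∏ a ∈ A, a) * ∏ b ∈ B, b := by
    have : ((dv A : ℚ)) * (dv B : ℚ) = ((∏ a ∈ A, a : ℕ) : ℚ) * ((∏ b ∈ B, b : ℕ) : ℚ) := by
      rw [← h1, ← h2]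
      linear_combination ((∏ a ∈ A, a : ℕ) : ℚ) * ((∏ b ∈ B, b : ℕ) : ℚ) * h
    exact_mod_cast this
  have c1 := coprime_dv cA
  have c2 := coprime_dv cB
  have d1 : (∏ a ∈ A, a) ∣ dv B :=
    c1.symm.dvd_of_dvd_mul_left (by rw [h3]; exact Dvd.intro _ rfl)
  have d2 : dv B ∣ ∏ a ∈ A, a :=
    c2.dvd_of_dvd_mul_right (by rw [← h3]; exact Dvd.intro_left _ rfl)
  have e2 : dv B = ∏ a ∈ A, a := Nat.dvd_antisymm d2 d1
  refine ⟨?_, e2⟩
  rw [e2, mul_comm] at h3
  exact Nat.eq_of_mul_eq_mul_left (Finset.prod_pos hA) h3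

lemma eq_singleton_one {A : Finset ℕ} (hA : ∀ a ∈ A, 0 < a) (h1 : 1 ∈ A)
    (h : dv A ≤ ∏ a ∈ A, a) : A = {1} := by
  have hp : (∏ b ∈ A.erase 1, b) = ∏ a ∈ A, a := by
    rw [← Finset.mul_prod_erase A (fun a => a) h1, one_mul]
  have hs : dv A = (∏ b ∈ A.erase 1, b) + ∑ x ∈ A.erase 1, ∏ b ∈ A.erase x, b := by
    rw [dv, ← Finset.add_sum_erase A _ h1]
  have h0 : ∑ x ∈ A.erase 1, ∏ b ∈ A.erase x, b = 0 := by omega
  have : A.erase 1 = ∅ := by
    by_contra hne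
    obtain ⟨x, hx⟩ := Finset.nonempty_iff_ne_empty.mpr hne
    have := (Finset.sum_eq_zero_iff.mp h0) x hx
    have hpos : 0 < ∏ b ∈ A.erase x, b :=
      Finset.prod_pos fun b hb => hA b (Finset.mem_of_mem_erase hb)
    omega
  rw [← Finset.insert_erase h1, this]
  rfl

lemma disj {A B : Finset ℕ} (hA : ∀ a ∈ A, 0 < a) (hB : ∀ b ∈ B, 0 < b)
    (cA : (A : Set ℕ).Pairwise Nat.Coprime)
    (hne : ¬ (A = {1} ∧ B = {1}))
    (h1 : dv A = ∏ b ∈ B, b) (h2 : dv B = ∏ a ∈ A, a) : Disjoint A B := by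
  rw [Finset.disjoint_left]
  intro x hx hx'
  have c := coprime_dv cA
  rw [h1] at c
  have hd : x ∣ 1 := by
    rw [← c]
    exact Nat.dvd_gcd (Finset.dvd_prod_of_mem (fun x => x) hx')
      (Finset.dvd_prod_of_mem (fun x => x) hx)
  have hx1 : x = 1 := Nat.dvd_one.mp hd
  subst hx1
  apply hne
  have a1 : (∏ a ∈ A, a) ≤ dv A := by
    rw [dv, ← Finset.add_sum_erase A _ hx, ← Finset.mul_prod_erase A (fun a => a) hx, one_mul]
    omega
  have b1 : (∏ a ∈ B, a) ≤ dv B := by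
    rw [dv, ← Finset.add_sum_erase B _ hx', ← Finset.mul_prod_erase B (fun a => a) hx', one_mul]
    omega
  exact ⟨eq_singleton_one hA hx (by omega), eq_singleton_one hB hx' (by omega)⟩

lemma dv_union {A B : Finset ℕ} (h : Disjoint A B) :
    dv (A ∪ B) = dv A * (∏ b ∈ B, b) + (∏ a ∈ A, a) * dv B := by
  unfold dv
  rw [Finset.sum_union h, Finset.sum_mul, Finset.mul_sum]
  congr 1
  · refine Finset.sum_congr rfl fun a ha => ?_
    have haB : a ∉ B := Finset.disjoint_left.mp h ha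
    rw [Finset.erase_union_distrib, Finset.erase_eq_of_notMem haB,
      Finset.prod_union (h.mono_left (Finset.erase_subset _ _))]
  · refine Finset.sum_congr rfl fun b hb => ?_
    have hbA : b ∉ A := Finset.disjoint_right.mp h hb
    rw [Finset.erase_union_distrib, Finset.erase_eq_of_notMem hbA,
      Finset.prod_union (h.mono_right (Finset.erase_subset _ _))]

lemma dv_sub {A V : Finset ℕ} (h : V ⊆ A) :
    dv A = dv V * (∏ b ∈ A \ V, b) + (∏ a ∈ V, a) * dv (A \ V) := by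
  conv_lhs => rw [← Finset.union_sdiff_of_subset h]
  exact dv_union Finset.disjoint_sdiff

lemma prod_sub {A V : Finset ℕ} (h : V ⊆ A) :
    ∏ a ∈ A, a = (∏ a ∈ V, a) * ∏ b ∈ A \ V, b := by
  rw [mul_comm, Finset.prod_sdiff h]

/-- the square of a common part divides the determinant -/
lemma sq_dvd {V A B : Finset ℕ} (hA : V ⊆ A) (hB : V ⊆ B) :
    (((∏ a ∈ V, a : ℕ) : ℤ)) ^ 2 ∣
      ((∏ a ∈ A, a : ℕ) : ℤ) * (dv B : ℤ) - ((∏ a ∈ B, a : ℕ) : ℤ) * (dv A : ℤ) := by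
  rw [dv_sub hA, dv_sub hB, prod_sub hA, prod_sub hB]
  refine ⟨((∏ a ∈ A \ V, a : ℕ) : ℤ) * (dv (B \ V) : ℤ) -
    ((∏ a ∈ B \ V, a : ℕ) : ℤ) * (dv (A \ V) : ℤ), ?_⟩
  push_cast
  ring

lemma dv_le (A : Finset ℕ) (hA : ∀ a ∈ A, 0 < a) : dv A ≤ A.card * ∏ a ∈ A, a := by
  unfold dv
  calc ∑ a ∈ A, ∏ b ∈ A.erase a, b ≤ ∑ a ∈ A, ∏ b ∈ A, b := by
        refine Finset.sum_le_sum fun a ha => ?_
        rw [← Finset.mul_prod_erase A (fun a => a) ha]
        exact Nat.le_mul_of_pos_left _ (hA a ha)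
    _ = _ := by simp

/-- the pair (product, numerator) determines the subset -/
lemma set_eq {S A B : Finset ℕ} (hS : ∀ a ∈ S, 0 < a) (cS : (S : Set ℕ).Pairwise Nat.Coprime)
    (hA : A ⊆ S) (hB : B ⊆ S) (h1 : ∏ a ∈ A, a = ∏ b ∈ B, b) (h2 : dv A = dv B) : A = B := by
  have key : ∀ A ⊆ S, ∀ a ∈ S, 1 < a → (a ∈ A ↔ a ∣ ∏ b ∈ A, b) := by
    intro A hA a ha ha1
    refine ⟨fun h => Finset.dvd_prod_of_mem (fun x => x) h, fun h => ?_⟩
    by_contra hcon
    have c : Nat.Coprime a (∏ b ∈ A, b) := by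
      refine Nat.Coprime.prod_right fun b hb => ?_
      exact cS (by exact_mod_cast ha) (by exact_mod_cast hA hb) (by rintro rfl; exact hcon hb)
    exact ha1.ne' (c.eq_one_of_dvd h)
  have main : ∀ A ⊆ S, ∀ B ⊆ S, ∏ a ∈ A, a = ∏ b ∈ B, b → dv A = dv B → A ⊆ B := by
    intro A hA B hB h1 h2 a ha
    rcases Nat.lt_or_ge 1 a with h | h
    · rw [key B hB a (hA ha) h, ← h1]
      exact Finset.dvd_prod_of_mem (fun x => x) ha
    · have ha1 : a = 1 := by
        have := hS a (hA ha)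
        omega
      subst ha1
      by_contra hcon
      have e : A = insert 1 B := by
        ext b
        rw [Finset.mem_insert]
        rcases eq_or_ne b 1 with hb | hb
        · simp [hb, ha]
        · constructor
          · intro hbA
            have hb1 : 1 < b := by
              have := hS b (hA hbA)
              omega
            right
            rw [key B hB b (hA hbA) hb1, ← h1]
            exact Finset.dvd_prod_of_mem (fun x => x) hbA
          · rintro (h3 | h3)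
            · exact absurd h3 hb
            · have hb1 : 1 < b := by
                have := hS b (hB h3)
                omega
              rw [key A hA b (hB h3) hb1, h1]
              exact Finset.dvd_prod_of_mem (fun x => x) h3
      have e2 : dv A = (∏ b ∈ B, b) + dv B := by
        rw [e, Finset.insert_eq, dv_union (by simpa using hcon)]
        simp [dv]
      have : 0 < ∏ b ∈ B, b := Finset.prod_pos fun b hb => hS b (hB hb)
      omega
  exact Finset.Subset.antisymm (main A hA B hB h1 h2) (main B hB A hA h1.symm h2.symm)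

end Pool.Agent.helper46.BC
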