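import Mathlib
import Pool.Agent.helper46.BC.Dv

/-!
# Solutions inside a finite set of coprime integers
-/

open Finset

namespace Pool.Agent.helper46.BC

/-- the heavy subsets -/
def heavy (U : Finset ℕ) : Finset (Finset ℕ) :=
  U.powerset.filter (fun V => ∏ a ∈ U, a ≤ (∏ a ∈ V, a) ^ 2)

lemma heavy_or {U V : Finset ℕ} (hU : ∀ a ∈ U, 0 < a) (hV : V ⊆ U) :
    V ∈ heavy U ∨ U \ V ∈ heavy U := by
  by_contra hcon
  push Not at hcon
  obtain ⟨h1, h2⟩ := hcon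
  have a1 : (∏ a ∈ V, a) ^ 2 < ∏ a ∈ U, a := by
    by_contra h
    exact h1 (Finset.mem_filter.mpr ⟨Finset.mem_powerset.mpr hV, not_lt.mp h⟩)
  have a2 : (∏ a ∈ U \ V, a) ^ 2 < ∏ a ∈ U, a := by
    by_contra h
    exact h2 (Finset.mem_filter.mpr
      ⟨Finset.mem_powerset.mpr Finset.sdiff_subset, not_lt.mp h⟩)
  have e := prod_sub hV
  have p1 : 0 < ∏ a ∈ V, a := Finset.prod_pos fun a ha => hU a (hV ha)
  have p2 : 0 < ∏ a ∈ U \ V, a := Finset.prod_pos fun a ha => hU a (Finset.sdiff_subset ha)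
  have p3 : 0 < ∏ a ∈ U, a := Finset.prod_pos hU
  have : (∏ a ∈ V, a) ^ 2 * (∏ a ∈ U \ V, a) ^ 2 < (∏ a ∈ U, a) * (∏ a ∈ U, a) :=
    Nat.mul_lt_mul_of_lt_of_lt a1 a2
  rw [← mul_pow, ← e, sq] at this
  exact lt_irrefl _ this

lemma two_pow_le_choose (k : ℕ) : 2 ^ k ≤ (k + 1) * k.choose (k / 2) := by
  rw [← Nat.sum_range_choose k]
  calc ∑ m ∈ Finset.range (k + 1), k.choose m ≤ ∑ m ∈ Finset.range (k + 1), k.choose (k / 2) :=
        Finset.sum_le_sum fun m _ => Nat.choose_le_middle m k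
    _ = _ := by simp

lemma heavy_sum {U : Finset ℕ} (hU : ∀ a ∈ U, 0 < a) :
    1 / (4 * ((U.card:ℝ) + 1)) ≤ ∑ V ∈ heavy U, ((1:ℝ) / 4) ^ V.card := by
  classical
  set k := U.card with hk
  set j := k / 2 with hj
  have hjk : j ≤ k := Nat.div_le_self _ _
  set F := (U.powersetCard j).filter (fun V => V ∈ heavy U) with hF
  set G := (U.powersetCard j).filter (fun V => ¬ V ∈ heavy U) with hG
  have cFG : F.card + G.card = k.choose j := by
    rw [hF, hG, Finset.card_filter_add_card_filter_not, Finset.card_powersetCard]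
  have nonneg : ∀ V : Finset ℕ, 0 ≤ ((1:ℝ) / 4) ^ V.card := fun V => by positivity
  have sF : (F.card : ℝ) * ((1:ℝ) / 4) ^ (k - j) ≤ ∑ V ∈ heavy U, ((1:ℝ) / 4) ^ V.card := by
    calc (F.card : ℝ) * ((1:ℝ) / 4) ^ (k - j) = ∑ V ∈ F, ((1:ℝ) / 4) ^ (k - j) := by simp
      _ ≤ ∑ V ∈ F, ((1:ℝ) / 4) ^ V.card := by
        refine Finset.sum_le_sum fun V hV => ?_
        have : V.card = j := (Finset.mem_powersetCard.mp (Finset.mem_filter.mp hV).1).2
        rw [this]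
        exact pow_le_pow_of_le_one (by norm_num) (by norm_num) (by omega)
      _ ≤ _ := Finset.sum_le_sum_of_subset_of_nonneg
        (fun V hV => (Finset.mem_filter.mp hV).2) (fun V _ _ => nonneg V)
  have sG : (G.card : ℝ) * ((1:ℝ) / 4) ^ (k - j) ≤ ∑ V ∈ heavy U, ((1:ℝ) / 4) ^ V.card := by
    have hinj : Set.InjOn (fun V : Finset ℕ => U \ V) (G : Set (Finset ℕ)) := by
      intro V hV W hW h
      have hV' := (Finset.mem_powersetCard.mp (Finset.mem_filter.mp hV).1).1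
      have hW' := (Finset.mem_powersetCard.mp (Finset.mem_filter.mp hW).1).1
      simp only at h
      rw [← Finset.sdiff_sdiff_eq_self hV', h, Finset.sdiff_sdiff_eq_self hW']
    calc (G.card : ℝ) * ((1:ℝ) / 4) ^ (k - j) = ∑ V ∈ G, ((1:ℝ) / 4) ^ (k - j) := by simp
      _ = ∑ V ∈ G, ((1:ℝ) / 4) ^ (U \ V).card := by
        refine Finset.sum_congr rfl fun V hV => ?_
        have := Finset.mem_powersetCard.mp (Finset.mem_filter.mp hV).1
        rw [Finset.card_sdiff_of_subset this.1, this.2]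
      _ = ∑ V ∈ G.image (fun V => U \ V), ((1:ℝ) / 4) ^ V.card := by
        rw [Finset.sum_image hinj]
      _ ≤ _ := by
        refine Finset.sum_le_sum_of_subset_of_nonneg (fun W hW => ?_) (fun V _ _ => nonneg V)
        obtain ⟨V, hV, rfl⟩ := Finset.mem_image.mp hW
        have hV1 := (Finset.mem_powersetCard.mp (Finset.mem_filter.mp hV).1).1
        exact (heavy_or hU hV1).resolve_left (Finset.mem_filter.mp hV).2
  have tot : ((k.choose j : ℕ) : ℝ) * ((1:ℝ) / 4) ^ (k - j) ≤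
      2 * ∑ V ∈ heavy U, ((1:ℝ) / 4) ^ V.card := by
    rw [← cFG]
    push_cast
    linarith
  have c1 : (2:ℝ) ^ k ≤ ((k:ℝ) + 1) * ((k.choose j : ℕ) : ℝ) := by
    exact_mod_cast two_pow_le_choose k
  have c2 : ((1:ℝ) / 2) ^ (k + 1) ≤ ((1:ℝ) / 4) ^ (k - j) := by
    have : ((1:ℝ) / 4) ^ (k - j) = ((1:ℝ) / 2) ^ (2 * (k - j)) := by
      rw [pow_mul]; norm_num
    rw [this]
    exact pow_le_pow_of_le_one (by norm_num) (by norm_num) (by omega)
  have k0 : (0:ℝ) < (k:ℝ) + 1 := by positivity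
  have c3 : (1:ℝ) / 2 ≤ ((k:ℝ) + 1) * (((k.choose j : ℕ) : ℝ) * ((1:ℝ) / 4) ^ (k - j)) := by
    calc (1:ℝ) / 2 = (2:ℝ) ^ k * ((1:ℝ) / 2) ^ (k + 1) := by
          rw [pow_succ, ← mul_assoc, ← mul_pow]; norm_num
      _ ≤ (((k:ℝ) + 1) * ((k.choose j : ℕ) : ℝ)) * ((1:ℝ) / 4) ^ (k - j) := by gcongr
      _ = _ := by ring
  rw [div_le_iff₀ (by positivity)]
  nlinarith

/-- solutions inside `S` -/
def solB (S : Finset ℕ) : Finset (Finset ℕ × Finset ℕ) :=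
  (S.powerset ×ˢ S.powerset).filter (fun s => s ≠ ({1}, {1}) ∧
    (∑ a ∈ s.1, (1:ℚ) / a) * (∑ b ∈ s.2, (1:ℚ) / b) = 1)

structure Cyc (S A B : Finset ℕ) : Prop where
  sA : A ⊆ S
  sB : B ⊆ S
  dA : dv A = ∏ b ∈ B, b
  dB : dv B = ∏ a ∈ A, a
  dis : Disjoint A B
  cop : Nat.Coprime (∏ a ∈ A, a) (∏ b ∈ B, b)

lemma solB_cyc {S : Finset ℕ} (hS : ∀ a ∈ S, 0 < a) (cS : (S : Set ℕ).Pairwise Nat.Coprime)
    {s : Finset ℕ × Finset ℕ} (hs : s ∈ solB S) : Cyc S s.1 s.2 := by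
  obtain ⟨h1, h2, h3⟩ := Finset.mem_filter.mp hs
  obtain ⟨h4, h5⟩ := Finset.mem_product.mp h1
  have sA := Finset.mem_powerset.mp h4
  have sB := Finset.mem_powerset.mp h5
  have hA : ∀ a ∈ s.1, 0 < a := fun a ha => hS a (sA ha)
  have hB : ∀ a ∈ s.2, 0 < a := fun a ha => hS a (sB ha)
  have cA : ((s.1 : Finset ℕ) : Set ℕ).Pairwise Nat.Coprime := cS.mono (by exact_mod_cast sA)
  have cB : ((s.2 : Finset ℕ) : Set ℕ).Pairwise Nat.Coprime := cS.mono (by exact_mod_cast sB)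
  obtain ⟨e1, e2⟩ := cycle hA hB cA cB h3
  refine ⟨sA, sB, e1, e2, disj hA hB cA ?_ e1 e2, ?_⟩
  · rintro ⟨a1, a2⟩
    exact h2 (Prod.ext a1 a2)
  · have := coprime_dv cA
    rw [e1] at this
    exact this.symm

/-- determinant of two solutions containing a common coloured heavy part -/
lemma det_ge {S V : Finset ℕ} (hS : ∀ a ∈ S, 0 < a) (cS : (S : Set ℕ).Pairwise Nat.Coprime)
    {A B A' B' : Finset ℕ} (h : Cyc S A B) (h' : Cyc S A' B')
    (hV : V ⊆ A ∪ B) (hV' : V ⊆ A' ∪ B') (hVA : A ∩ V = A' ∩ V)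
    (hne : ¬ (A = A' ∧ B = B')) :
    ((∏ a ∈ V, a) ^ 2 ≤ (∏ a ∈ A, a) * (∏ b ∈ B', b) - (∏ a ∈ A', a) * (∏ b ∈ B, b) ∧
      (∏ a ∈ A', a) * (∏ b ∈ B, b) < (∏ a ∈ A, a) * (∏ b ∈ B', b)) ∨
    ((∏ a ∈ V, a) ^ 2 ≤ (∏ a ∈ A', a) * (∏ b ∈ B, b) - (∏ a ∈ A, a) * (∏ b ∈ B', b) ∧
      (∏ a ∈ A, a) * (∏ b ∈ B', b) < (∏ a ∈ A', a) * (∏ b ∈ B, b)) := by
  have hVB : V \ A = V \ A' := by
    have e1 : V \ A = V \ (A ∩ V) := by
      ext x; simp only [Finset.mem_sdiff, Finset.mem_inter]; tauto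
    have e2 : V \ A' = V \ (A' ∩ V) := by
      ext x; simp only [Finset.mem_sdiff, Finset.mem_inter]; tauto
    rw [e1, e2, hVA]
  set D := ∏ a ∈ A ∩ V, a with hD
  set E := ∏ a ∈ V \ A, a with hE
  have hDE : ∏ a ∈ V, a = D * E := by
    rw [hD, hE, Finset.inter_comm, ← Finset.prod_inter_mul_prod_sdiff V A]
  have sub1 : A ∩ V ⊆ A := Finset.inter_subset_left
  have sub2 : A ∩ V ⊆ A' := by rw [hVA]; exact Finset.inter_subset_left
  have sub3 : V \ A ⊆ B := by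
    intro x hx
    obtain ⟨h1, h2⟩ := Finset.mem_sdiff.mp hx
    rcases Finset.mem_union.mp (hV h1) with h3 | h3
    · exact absurd h3 h2
    · exact h3
  have sub4 : V \ A ⊆ B' := by
    rw [hVB]
    intro x hx
    obtain ⟨h1, h2⟩ := Finset.mem_sdiff.mp hx
    rcases Finset.mem_union.mp (hV' h1) with h3 | h3
    · exact absurd h3 h2
    · exact h3
  set N := ∏ a ∈ A, a with hN
  set M := ∏ b ∈ B, b with hM
  set N' := ∏ a ∈ A', a with hN'
  set M' := ∏ b ∈ B', b with hM'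
  have d1 : ((D:ℕ):ℤ) ^ 2 ∣ (N:ℤ) * M' - (N':ℤ) * M := by
    have := sq_dvd sub1 sub2
    rwa [h.dA, h'.dA] at this
  have d2 : ((E:ℕ):ℤ) ^ 2 ∣ (N:ℤ) * M' - (N':ℤ) * M := by
    have := sq_dvd sub3 sub4
    rw [h.dB, h'.dB] at this
    have e : (N:ℤ) * M' - (N':ℤ) * M = -((M:ℤ) * N' - (M':ℤ) * N) := by ring
    rw [e]
    exact (dvd_neg).mpr this
  have cDE : IsCoprime (((D:ℕ):ℤ) ^ 2) (((E:ℕ):ℤ) ^ 2) := by
    have h1 : D ∣ N := Finset.prod_dvd_prod_of_subset _ _ _ sub1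
    have h2 : E ∣ M := Finset.prod_dvd_prod_of_subset _ _ _ sub3
    have : Nat.Coprime D E := Nat.Coprime.of_dvd h1 h2 h.cop
    exact (Nat.isCoprime_iff_coprime.mpr this).pow
  have d3 : (((∏ a ∈ V, a) ^ 2 : ℕ) : ℤ) ∣ (N:ℤ) * M' - (N':ℤ) * M := by
    rw [hDE]
    push_cast
    rw [mul_pow]
    exact cDE.mul_dvd d1 d2
  have posA : ∀ X : Finset ℕ, X ⊆ S → 0 < ∏ a ∈ X, a := fun X hX =>
    Finset.prod_pos fun a ha => hS a (hX ha)
  have hne' : N * M' ≠ N' * M := by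
    intro heq
    have c1 : N ∣ N' := h.cop.dvd_of_dvd_mul_right (by rw [← heq]; exact Dvd.intro _ rfl)
    have c2 : N' ∣ N := h'.cop.dvd_of_dvd_mul_right (by rw [heq]; exact Dvd.intro _ rfl)
    have eN : N = N' := Nat.dvd_antisymm c1 c2
    have eM : M = M' := by
      rw [← eN] at heq
      exact (Nat.eq_of_mul_eq_mul_left (posA A h.sA) heq).symm
    refine hne ⟨set_eq hS cS h.sA h'.sA eN ?_, set_eq hS cS h.sB h'.sB eM ?_⟩
    · rw [h.dA, h'.dA]; exact eM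
    · rw [h.dB, h'.dB]; exact eN
  rcases lt_or_gt_of_ne hne' with hlt | hgt
  · right
    refine ⟨?_, hlt⟩
    have hz : (0:ℤ) < (N':ℤ) * M - (N:ℤ) * M' := by
      have : ((N * M' : ℕ) : ℤ) < ((N' * M : ℕ) : ℤ) := by exact_mod_cast hlt
      push_cast at this
      linarith
    have d4 : (((∏ a ∈ V, a) ^ 2 : ℕ) : ℤ) ∣ (N':ℤ) * M - (N:ℤ) * M' := by
      have e : (N':ℤ) * M - (N:ℤ) * M' = -((N:ℤ) * M' - (N':ℤ) * M) := by ring
      rw [e]
      exact (dvd_neg).mpr d3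
    have := Int.le_of_dvd hz d4
    zify [hlt.le]
    push_cast at this
    exact this
  · left
    refine ⟨?_, hgt⟩
    have hz : (0:ℤ) < (N:ℤ) * M' - (N':ℤ) * M := by
      have : ((N' * M : ℕ) : ℤ) < ((N * M' : ℕ) : ℤ) := by exact_mod_cast hgt
      push_cast at this
      linarith
    have := Int.le_of_dvd hz d3
    zify [hgt.le]
    push_cast at this
    exact this

end Pool.Agent.helper46.BC
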