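import Mathlib
import Pool.Agent.helper46.BC.PB

/-!
# The bound `(3/2)^n`
-/

open Finset

namespace Pool.Agent.helper46.BC

lemma prod_U {S A B : Finset ℕ} (h : Cyc S A B) :
    ∏ a ∈ A ∪ B, a = (∏ a ∈ A, a) * ∏ b ∈ B, b := Finset.prod_union h.dis

lemma prod_le_sq {U V : Finset ℕ} (h : V ∈ heavy U) : ∏ a ∈ U, a ≤ (∏ a ∈ V, a) ^ 2 :=
  (Finset.mem_filter.mp h).2

lemma heavy_sub {U V : Finset ℕ} (h : V ∈ heavy U) : V ⊆ U :=
  Finset.mem_powerset.mp (Finset.mem_filter.mp h).1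

lemma two_mul_le_of {a b G : ℕ} (h1 : G ≤ a - b) (h2 : b < a) (h3 : a * b ≤ G * G) :
    2 * b ≤ a := by
  by_contra hcon
  have h4 : G < b := by omega
  have h5 : b + G ≤ a := by omega
  have : G * G < a * b := by nlinarith
  omega

/-- the separating map -/
def gg (n : ℕ) (s : Finset ℕ × Finset ℕ) : ℕ :=
  Nat.log 2 (n * (∏ b ∈ s.2, b) / ∏ a ∈ s.1, a)

lemma gg_lt {n N M N' M' : ℕ} (hN : 0 < N) (hN' : 0 < N') (h : 2 * (N' * M) ≤ N * M')
    (h1 : N ≤ n * M) : Nat.log 2 (n * M / N) < Nat.log 2 (n * M' / N') := by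
  set q := n * M / N with hq
  have q1 : 1 ≤ q := (Nat.le_div_iff_mul_le hN).mpr (by omega)
  have q2 : q * N ≤ n * M := Nat.div_mul_le_self _ _
  have q3 : 2 * q ≤ n * M' / N' := by
    rw [Nat.le_div_iff_mul_le hN']
    have : N * (2 * q * N') ≤ N * (n * M') := by
      calc N * (2 * q * N') = 2 * (q * N) * N' := by ring
        _ ≤ 2 * (n * M) * N' := by gcongr
        _ = n * (2 * (N' * M)) := by ring
        _ ≤ n * (N * M') := by gcongr
        _ = N * (n * M') := by ring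
    exact Nat.le_of_mul_le_mul_left this hN
  calc Nat.log 2 q < Nat.log 2 q + 1 := Nat.lt_succ_self _
    _ = Nat.log 2 (q * 2) := (Nat.log_mul_base (by norm_num) (by omega)).symm
    _ ≤ Nat.log 2 (n * M' / N') := Nat.log_mono_right (by omega)

/-- a fibre of the double count -/
def fib (S V A' : Finset ℕ) : Finset (Finset ℕ × Finset ℕ) :=
  (solB S).filter (fun s => V ∈ heavy (s.1 ∪ s.2) ∧ s.1 ∩ V = A')

lemma fib_card {S : Finset ℕ} (hS : ∀ a ∈ S, 0 < a) (cS : (S : Set ℕ).Pairwise Nat.Coprime)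
    (V A' : Finset ℕ) : (fib S V A').card ≤ 2 * Nat.log 2 S.card + 2 := by
  set n := S.card with hn
  have posX : ∀ X : Finset ℕ, X ⊆ S → 0 < ∏ a ∈ X, a := fun X hX =>
    Finset.prod_pos fun a ha => hS a (hX ha)
  have cyc : ∀ s ∈ fib S V A', Cyc S s.1 s.2 := fun s hs =>
    solB_cyc hS cS (Finset.mem_filter.mp hs).1
  have b1 : ∀ s ∈ fib S V A', ∏ a ∈ s.1, a ≤ n * ∏ b ∈ s.2, b := by
    intro s hs
    have h := cyc s hs
    rw [← h.dB]
    calc dv s.2 ≤ s.2.card * ∏ b ∈ s.2, b := dv_le _ fun a ha => hS a (h.sB ha)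
      _ ≤ n * ∏ b ∈ s.2, b := Nat.mul_le_mul_right _ (Finset.card_le_card h.sB)
  have b2 : ∀ s ∈ fib S V A', ∏ b ∈ s.2, b ≤ n * ∏ a ∈ s.1, a := by
    intro s hs
    have h := cyc s hs
    rw [← h.dA]
    calc dv s.1 ≤ s.1.card * ∏ b ∈ s.1, b := dv_le _ fun a ha => hS a (h.sA ha)
      _ ≤ n * ∏ b ∈ s.1, b := Nat.mul_le_mul_right _ (Finset.card_le_card h.sA)
  have hmap : ∀ s ∈ fib S V A', gg n s ∈ Finset.range (2 * Nat.log 2 n + 2) := by
    intro s hs
    have h := cyc s hs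
    rw [Finset.mem_range]
    unfold gg
    have p1 : 0 < ∏ a ∈ s.1, a := posX _ h.sA
    have e1 : n * (∏ b ∈ s.2, b) / (∏ a ∈ s.1, a) ≤ n * n := by
      refine Nat.div_le_of_le_mul ?_
      calc n * (∏ b ∈ s.2, b) ≤ n * (n * ∏ a ∈ s.1, a) := Nat.mul_le_mul_left _ (b2 s hs)
        _ = (∏ a ∈ s.1, a) * (n * n) := by ring
    have n0 : n ≠ 0 := by
      intro h0
      have := b1 s hs
      rw [h0] at this
      omega
    have e2 : n * n < 2 ^ (2 * Nat.log 2 n + 2) := by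
      have h3 := Nat.lt_pow_succ_log_self (b := 2) (by norm_num) n
      calc n * n < 2 ^ (Nat.log 2 n).succ * 2 ^ (Nat.log 2 n).succ :=
            Nat.mul_lt_mul_of_lt_of_lt h3 h3
        _ = _ := by rw [← pow_add]; congr 1; omega
    exact Nat.log_lt_of_lt_pow' (by omega) (lt_of_le_of_lt e1 e2)
  have hinj : Set.InjOn (gg n) (fib S V A' : Set (Finset ℕ × Finset ℕ)) := by
    intro s hs t ht hst
    by_contra hne
    have h := cyc s hs
    have h' := cyc t ht
    obtain ⟨-, hv, ha⟩ := Finset.mem_filter.mp hs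
    obtain ⟨-, hv', ha'⟩ := Finset.mem_filter.mp ht
    have hle := prod_le_sq hv
    have hle' := prod_le_sq hv'
    rw [prod_U h] at hle
    rw [prod_U h'] at hle'
    set N := ∏ a ∈ s.1, a with hN
    set M := ∏ b ∈ s.2, b with hM
    set N' := ∏ a ∈ t.1, a with hN'
    set M' := ∏ b ∈ t.2, b with hM'
    set G := (∏ a ∈ V, a) ^ 2 with hG
    have hprod : N * M' * (N' * M) ≤ G * G := by
      calc N * M' * (N' * M) = (N * M) * (N' * M') := by ring
        _ ≤ G * G := Nat.mul_le_mul hle hle'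
    rcases det_ge hS cS h h' (heavy_sub hv) (heavy_sub hv') (ha.trans ha'.symm)
      (fun hh => hne (Prod.ext hh.1 hh.2)) with ⟨h1, h2⟩ | ⟨h1, h2⟩
    · have h3 := two_mul_le_of h1 h2 hprod
      have := gg_lt (n := n) (posX _ h.sA) (posX _ h'.sA) h3 (b1 s hs)
      exact absurd hst this.ne
    · have h3 := two_mul_le_of h1 h2 (by rw [mul_comm]; exact hprod)
      have := gg_lt (n := n) (posX _ h'.sA) (posX _ h.sA) h3 (b1 t ht)
      exact absurd hst this.ne'
  calc (fib S V A').card ≤ (Finset.range (2 * Nat.log 2 n + 2)).card :=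
        Finset.card_le_card_of_injOn _ hmap hinj
    _ = _ := Finset.card_range _

theorem partB (S : Finset ℕ) (hS : ∀ a ∈ S, 0 < a) (cS : (S : Set ℕ).Pairwise Nat.Coprime) :
    ((solB S).card : ℝ) ≤
      8 * ((S.card : ℝ) + 1) * ((Nat.log 2 S.card : ℝ) + 1) * (3 / 2) ^ S.card := by
  classical
  set n := S.card with hn
  set Λ := 2 * Nat.log 2 n + 2 with hΛ
  have h1 : ((solB S).card : ℝ) * (1 / (4 * ((n:ℝ) + 1))) ≤
      ∑ s ∈ solB S, ∑ V ∈ heavy (s.1 ∪ s.2), ((1:ℝ) / 4) ^ V.card := by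
    calc ((solB S).card : ℝ) * (1 / (4 * ((n:ℝ) + 1))) =
        ∑ s ∈ solB S, 1 / (4 * ((n:ℝ) + 1)) := by simp
      _ ≤ _ := by
        refine Finset.sum_le_sum fun s hs => ?_
        have h := solB_cyc hS cS hs
        have hsub : s.1 ∪ s.2 ⊆ S := Finset.union_subset h.sA h.sB
        refine le_trans ?_ (heavy_sum fun a ha => hS a (hsub ha))
        have : ((s.1 ∪ s.2).card : ℝ) ≤ n := by exact_mod_cast Finset.card_le_card hsub
        gcongr
  have h2 : ∑ s ∈ solB S, ∑ V ∈ heavy (s.1 ∪ s.2), ((1:ℝ) / 4) ^ V.card =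
      ∑ V ∈ S.powerset, (((solB S).filter (fun s => V ∈ heavy (s.1 ∪ s.2))).card : ℝ) *
        ((1:ℝ) / 4) ^ V.card := by
    have e1 : ∀ s ∈ solB S, ∑ V ∈ heavy (s.1 ∪ s.2), ((1:ℝ) / 4) ^ V.card =
        ∑ V ∈ S.powerset, if V ∈ heavy (s.1 ∪ s.2) then ((1:ℝ) / 4) ^ V.card else 0 := by
      intro s hs
      have h := solB_cyc hS cS hs
      have hsub : s.1 ∪ s.2 ⊆ S := Finset.union_subset h.sA h.sB
      rw [← Finset.sum_filter]
      refine Finset.sum_congr ?_ fun _ _ => rfl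
      ext V
      rw [Finset.mem_filter, Finset.mem_powerset]
      exact ⟨fun hV => ⟨(heavy_sub hV).trans hsub, hV⟩, fun hV => hV.2⟩
    rw [Finset.sum_congr rfl e1, Finset.sum_comm]
    refine Finset.sum_congr rfl fun V _ => ?_
    rw [← Finset.sum_filter, Finset.sum_const, nsmul_eq_mul]
  have h3 : ∀ V ∈ S.powerset,
      (((solB S).filter (fun s => V ∈ heavy (s.1 ∪ s.2))).card : ℝ) * ((1:ℝ) / 4) ^ V.card ≤
      (Λ:ℝ) * ((1:ℝ) / 2) ^ V.card := by
    intro V _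
    have e1 : ((solB S).filter (fun s => V ∈ heavy (s.1 ∪ s.2))).card ≤ 2 ^ V.card * Λ := by
      have hmap : ∀ s ∈ (solB S).filter (fun s => V ∈ heavy (s.1 ∪ s.2)),
          s.1 ∩ V ∈ V.powerset := fun s _ => Finset.mem_powerset.mpr Finset.inter_subset_right
      rw [Finset.card_eq_sum_card_fiberwise hmap]
      calc _ ≤ ∑ A' ∈ V.powerset, Λ := by
            refine Finset.sum_le_sum fun A' _ => ?_
            have := fib_card hS cS V A'
            unfold fib at this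
            rw [Finset.filter_filter]
            exact this
        _ = _ := by simp
    have e2 : (((solB S).filter (fun s => V ∈ heavy (s.1 ∪ s.2))).card : ℝ) ≤
        2 ^ V.card * (Λ:ℝ) := by exact_mod_cast e1
    calc _ ≤ (2 ^ V.card * (Λ:ℝ)) * ((1:ℝ) / 4) ^ V.card := by gcongr
      _ = (Λ:ℝ) * (2 * (1 / 4)) ^ V.card := by rw [mul_pow]; ring
      _ = _ := by norm_num
  have h4 : ∑ V ∈ S.powerset, ((1:ℝ) / 2) ^ V.card = (3 / 2) ^ n := by
    have := Finset.sum_pow_mul_eq_add_pow ((1:ℝ) / 2) 1 S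
    simp only [one_pow, mul_one] at this
    rw [this, ← hn]
    norm_num
  have h5 : ((solB S).card : ℝ) * (1 / (4 * ((n:ℝ) + 1))) ≤ (Λ:ℝ) * (3 / 2) ^ n := by
    refine h1.trans ?_
    rw [h2]
    refine (Finset.sum_le_sum h3).trans ?_
    rw [← Finset.mul_sum, h4]
  rw [mul_one_div, div_le_iff₀ (by positivity)] at h5
  refine h5.trans (le_of_eq ?_)
  rw [hΛ]
  push_cast
  ring

end Pool.Agent.helper46.BC
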