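import Mathlib
import Pool.Agent.helper46.BC.PC

/-!
# The bound by the number of elements
-/

open Finset

namespace Pool.Agent.helper46.BC

/-- heavy subsets of a given size -/
def hv (U : Finset ℕ) (i : ℕ) : Finset (Finset ℕ) :=
  (U.powersetCard i).filter (fun V => V ∈ heavy U)

lemma choose_le_heavy {U : Finset ℕ} (hU : ∀ a ∈ U, 0 < a) {k i j : ℕ} (hk : U.card = k)
    (hij : i + j = k) : k.choose i ≤ (hv U i).card + (hv U j).card := by
  classical
  have h1 : ((U.powersetCard i).filter (fun V => ¬ V ∈ heavy U)).card ≤ (hv U j).card := by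
    refine Finset.card_le_card_of_injOn (fun V => U \ V) (fun V hV => ?_) ?_
    · obtain ⟨h2, h3⟩ := Finset.mem_filter.mp hV
      obtain ⟨h4, h5⟩ := Finset.mem_powersetCard.mp h2
      refine Finset.mem_coe.mpr (Finset.mem_filter.mpr ⟨?_, (heavy_or hU h4).resolve_left h3⟩)
      refine Finset.mem_powersetCard.mpr ⟨Finset.sdiff_subset, ?_⟩
      rw [Finset.card_sdiff_of_subset h4, h5, hk]
      omega
    · intro V hV W hW h
      have hV' := (Finset.mem_powersetCard.mp (Finset.mem_filter.mp hV).1).1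
      have hW' := (Finset.mem_powersetCard.mp (Finset.mem_filter.mp hW).1).1
      simp only at h
      rw [← Finset.sdiff_sdiff_eq_self hV', h, Finset.sdiff_sdiff_eq_self hW']
  have h2 : (hv U i).card + ((U.powersetCard i).filter (fun V => ¬ V ∈ heavy U)).card =
      k.choose i := by
    unfold hv
    rw [Finset.card_filter_add_card_filter_not, Finset.card_powersetCard, hk]
  omega

/-- solutions with a given number of elements -/
def solK (S : Finset ℕ) (k : ℕ) : Finset (Finset ℕ × Finset ℕ) :=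
  (solB S).filter (fun s => (s.1 ∪ s.2).card = k)

lemma count_hv {S : Finset ℕ} (hS : ∀ a ∈ S, 0 < a) (cS : (S : Set ℕ).Pairwise Nat.Coprime)
    (k i : ℕ) : ∑ s ∈ solK S k, (hv (s.1 ∪ s.2) i).card ≤
      S.card.choose i * (2 ^ i * (2 * Nat.log 2 S.card + 2)) := by
  classical
  have h1 : ∀ s ∈ solK S k, (hv (s.1 ∪ s.2) i).card =
      ∑ V ∈ S.powersetCard i, if V ∈ heavy (s.1 ∪ s.2) then 1 else 0 := by
    intro s hs
    have h := solB_cyc hS cS (Finset.mem_filter.mp hs).1
    have hsub : s.1 ∪ s.2 ⊆ S := Finset.union_subset h.sA h.sB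
    rw [← Finset.sum_filter, Finset.sum_const, smul_eq_mul, mul_one]
    congr 1
    ext V
    simp only [hv, Finset.mem_filter, Finset.mem_powersetCard]
    constructor
    · rintro ⟨⟨a1, a2⟩, a3⟩
      exact ⟨⟨a1.trans hsub, a2⟩, a3⟩
    · rintro ⟨⟨a1, a2⟩, a3⟩
      exact ⟨⟨heavy_sub a3, a2⟩, a3⟩
  rw [Finset.sum_congr rfl h1, Finset.sum_comm]
  have h2 : ∀ V ∈ S.powersetCard i,
      ∑ s ∈ solK S k, (if V ∈ heavy (s.1 ∪ s.2) then 1 else 0) ≤
      2 ^ i * (2 * Nat.log 2 S.card + 2) := by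
    intro V hV
    rw [← Finset.sum_filter, Finset.sum_const, smul_eq_mul, mul_one]
    have hmap : ∀ s ∈ (solK S k).filter (fun s => V ∈ heavy (s.1 ∪ s.2)),
        s.1 ∩ V ∈ V.powerset := fun s _ => Finset.mem_powerset.mpr Finset.inter_subset_right
    rw [Finset.card_eq_sum_card_fiberwise hmap]
    calc _ ≤ ∑ A' ∈ V.powerset, (2 * Nat.log 2 S.card + 2) := by
          refine Finset.sum_le_sum fun A' _ => ?_
          refine le_trans (Finset.card_le_card fun s hs => ?_) (fib_card hS cS V A')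
          obtain ⟨a1, a2⟩ := Finset.mem_filter.mp hs
          obtain ⟨a3, a4⟩ := Finset.mem_filter.mp a1
          exact Finset.mem_filter.mpr ⟨(Finset.mem_filter.mp a3).1, a4, a2⟩
      _ = _ := by
        rw [Finset.sum_const, Finset.card_powerset, (Finset.mem_powersetCard.mp hV).2,
          smul_eq_mul]
  calc _ ≤ ∑ V ∈ S.powersetCard i, 2 ^ i * (2 * Nat.log 2 S.card + 2) := Finset.sum_le_sum h2
    _ = _ := by rw [Finset.sum_const, Finset.card_powersetCard, smul_eq_mul]

theorem partK (S : Finset ℕ) (hS : ∀ a ∈ S, 0 < a) (cS : (S : Set ℕ).Pairwise Nat.Coprime)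
    (i j : ℕ) :
    (i + j).choose i * (solK S (i + j)).card ≤
      2 * (Nat.log 2 S.card + 1) * (2 ^ i * S.card.choose i + 2 ^ j * S.card.choose j) := by
  have h1 : ∑ s ∈ solK S (i + j), (i + j).choose i ≤
      ∑ s ∈ solK S (i + j), ((hv (s.1 ∪ s.2) i).card + (hv (s.1 ∪ s.2) j).card) := by
    refine Finset.sum_le_sum fun s hs => ?_
    obtain ⟨h2, h3⟩ := Finset.mem_filter.mp hs
    have h := solB_cyc hS cS h2
    have hsub : s.1 ∪ s.2 ⊆ S := Finset.union_subset h.sA h.sB
    exact choose_le_heavy (fun a ha => hS a (hsub ha)) h3 rfl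
  rw [Finset.sum_add_distrib, Finset.sum_const, smul_eq_mul] at h1
  have h4 := count_hv hS cS (i + j) i
  have h5 := count_hv hS cS (i + j) j
  calc (i + j).choose i * (solK S (i + j)).card = (solK S (i + j)).card * (i + j).choose i :=
        mul_comm _ _
    _ ≤ _ := h1
    _ ≤ S.card.choose i * (2 ^ i * (2 * Nat.log 2 S.card + 2)) +
        S.card.choose j * (2 ^ j * (2 * Nat.log 2 S.card + 2)) := add_le_add h4 h5
    _ = _ := by ring

end Pool.Agent.helper46.BC
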