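import Mathlib
import Pool.Agent.helper46.BC.Fin

/-!
# Solutions with a large prime
-/

open Finset

namespace Pool.Agent.helper46.BC

/-- solutions with `∏ P ≤ x` having a prime above `w` -/
def SolL (x w : ℕ) : Set (Finset ℕ × Finset ℕ) :=
  {s | (∀ p ∈ s.1, p.Prime) ∧ (∀ q ∈ s.2, q.Prime) ∧
    (∑ p ∈ s.1, (1:ℚ) / p) * (∑ q ∈ s.2, (1:ℚ) / q) = 1 ∧ ∏ p ∈ s.1, p ≤ x ∧
    ∃ p ∈ s.1 ∪ s.2, w < p}

theorem solL_finite (x w : ℕ) : (SolL x w).Finite := by
  refine Set.Finite.of_injOn (f := fun s : Finset ℕ × Finset ℕ => ∏ p ∈ s.1, p)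
    (t := ((Finset.range (x + 1) : Finset ℕ) : Set ℕ)) ?_ ?_ (Finset.finite_toSet _)
  · rintro ⟨P, Q⟩ ⟨_, _, _, a4, _⟩
    simp only [Finset.coe_range, Set.mem_Iio]
    exact Nat.lt_succ_of_le a4
  · refine (sol_inj (x := x)).mono ?_
    rintro ⟨P, Q⟩ ⟨a1, a2, a3, a4, _⟩
    exact ⟨a1, a2, a3, a4⟩

theorem large_prime {x X y : ℕ} (hx : 2 ≤ x) (hX : X = x * Nat.log 2 x) (hy : 1 ≤ y) :
    ((SolL x (2 * (Nat.log 2 X) ^ 2 * y ^ 4)).ncard : ℝ) ≤ 4 * X * (1 + Real.log X) / y := by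
  classical
  set T : Set ℕ := ((Aset X y ∪ (Gset x).filter (fun n => ad n ∈ Aset X y) : Finset ℕ) : Set ℕ)
    with hT
  have hW1 : 1 ≤ Nat.log 2 x := Nat.log_pos (by norm_num) hx
  have hxX : x ≤ X := by rw [hX]; exact Nat.le_mul_of_pos_right x hW1
  have hX2 : 2 ≤ X := hx.trans hxX
  have had : ∀ n ≤ x, Squarefree n → ad n ≤ X := fun n hn hs => by
    rw [hX]
    exact (ad_le_mul hs hn).trans (Nat.mul_le_mul_right _ hn)
  have hm : Set.MapsTo (fun s : Finset ℕ × Finset ℕ => ∏ p ∈ s.1, p)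
      (SolL x (2 * (Nat.log 2 X) ^ 2 * y ^ 4)) T := by
    rintro ⟨P, Q⟩ ⟨a1, a2, a3, a4, p, hp, hpb⟩
    simp only at a1 a2 a3 a4 hp
    obtain ⟨g1, g2⟩ := sol_good a1 a2 a3
    have nX : ∏ p ∈ P, p ≤ X := a4.trans hxX
    have mX : ad (∏ p ∈ P, p) ≤ X := had _ a4 g1.1
    have hG : ∏ p ∈ P, p ∈ Gset x := Finset.mem_filter.mpr ⟨by simp only [Finset.mem_range]; omega, g1⟩
    have key : ∏ p ∈ P, p ∈ Aset X y ∨ ad (∏ p ∈ P, p) ∈ Aset X y := by
      rcases Finset.mem_union.mp hp with h | h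
      · exact structure_thm hX2 hy g1 nX mX (a1 p h)
          (Finset.dvd_prod_of_mem (fun x => x) h) hpb
      · have := structure_thm (n := ad (∏ p ∈ P, p)) hX2 hy g1.symm mX
          (by rw [g1.2.2]; exact nX) (a2 p h)
          (by rw [g2]; exact Finset.dvd_prod_of_mem (fun x => x) h) hpb
        rw [g1.2.2] at this
        exact this.symm
    simp only [hT, Finset.coe_union, Set.mem_union, Finset.mem_coe]
    rcases key with h | h
    · left; exact h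
    · right; exact Finset.mem_filter.mpr ⟨hG, h⟩
  have hi : Set.InjOn (fun s : Finset ℕ × Finset ℕ => ∏ p ∈ s.1, p)
      (SolL x (2 * (Nat.log 2 X) ^ 2 * y ^ 4)) := by
    refine (sol_inj (x := x)).mono ?_
    rintro ⟨P, Q⟩ ⟨a1, a2, a3, a4, _⟩
    exact ⟨a1, a2, a3, a4⟩
  have h1 := Set.ncard_le_ncard_of_injOn _ hm hi (Finset.finite_toSet _)
  rw [hT, Set.ncard_coe_finset] at h1
  have h3 : ((Gset x).filter (fun n => ad n ∈ Aset X y)).card ≤ (Aset X y).card := by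
    refine Finset.card_le_card_of_injOn ad (fun n hn => ?_) ?_
    · exact (Finset.mem_filter.mp hn).2
    · intro n hn m hm h
      have hn' := (Finset.mem_filter.mp (Finset.mem_filter.mp hn).1).2
      have hm' := (Finset.mem_filter.mp (Finset.mem_filter.mp hm).1).2
      exact good_inj hn' hm' h
  have h4 : (SolL x (2 * (Nat.log 2 X) ^ 2 * y ^ 4)).ncard ≤ 2 * (Aset X y).card := by
    have := Finset.card_union_le (Aset X y) ((Gset x).filter (fun n => ad n ∈ Aset X y))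
    omega
  have h5 := card_Aset X y (by omega) hy
  calc ((SolL x (2 * (Nat.log 2 X) ^ 2 * y ^ 4)).ncard : ℝ) ≤ 2 * ((Aset X y).card : ℝ) := by
        exact_mod_cast h4
    _ ≤ 2 * (2 * X * (1 + Real.log X) / y) := by gcongr
    _ = _ := by ring

end Pool.Agent.helper46.BC
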